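import Pool.Agent.Lib.MP_1a91b9_ntQ.A.LocDef4
import Pool.Agent.Lib.MP_1a91b9_ntQ.R.Arith4

/-!
# MP_1a91b9_nt (abelian extensions of exponent four): the abscissae of `y² = x³ - 2 x` over `ℚ(i)`
-/

set_option autoImplicit false

namespace Pool.Agent.Lib.MP_1a91b9_ntQH.R4

open NumberField Pool.Agent.Lib.MP_1a91b9_nuT Pool.Agent.Lib.MP_1a91b9_ntQ

/-- associated to a square: a square up to `i` -/
private theorem R1_sq_of_assoc {a c : 𝓞 K4} (h : Associated (c ^ 2) a) :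
    ∃ d : 𝓞 K4, a = d ^ 2 ∨ a = iO * d ^ 2 := by
  obtain ⟨u, hu⟩ := h
  obtain ⟨k, hk, hk'⟩ := isUnit_iff.1 u.isUnit
  rw [← hu, hk']
  have h1 : k = 0 ∨ k = 1 ∨ k = 2 ∨ k = 3 := by omega
  rcases h1 with rfl | rfl | rfl | rfl
  · exact ⟨c, Or.inl (by ring)⟩
  · exact ⟨c, Or.inr (by ring)⟩
  · exact ⟨iO * c, Or.inl (by ring)⟩
  · exact ⟨iO * c, Or.inr (by ring)⟩

private theorem R1_cop (x : 𝓞 K4) : IsCoprime x iO :=
  ⟨0, -iO, by linear_combination -iO_sq⟩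

/-- The factors of the equation. -/
private theorem R1_ar (a b t : 𝓞 K4) (ha : a ≠ 0) (hab : IsCoprime a b)
    (h : a * b * (a ^ 2 - 2 * b ^ 2) = t ^ 2) :
    (∃ α : 𝓞 K4, a = α ^ 2 ∨ a = iO * α ^ 2 ∨ a = lam * α ^ 2 ∨ a = iO * lam * α ^ 2) ∧
      ∃ β : 𝓞 K4, b = β ^ 2 ∨ b = iO * β ^ 2 := by
  have h2 : (2 : 𝓞 K4) = -iO * lam ^ 2 := two_eq
  have hbc : IsCoprime b (a ^ 2 - 2 * b ^ 2) := by
    have e : a ^ 2 - 2 * b ^ 2 = a ^ 2 + b * (-2 * b) := by ring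
    rw [e]
    exact IsCoprime.add_mul_left_right (hab.symm.pow_right) _
  have hbac : IsCoprime b (a * (a ^ 2 - 2 * b ^ 2)) :=
    IsCoprime.mul_right hab.symm hbc
  have h' : b * (a * (a ^ 2 - 2 * b ^ 2)) = t ^ 2 := by
    rw [← h]
    ring
  have hB : ∃ β : 𝓞 K4, b = β ^ 2 ∨ b = iO * β ^ 2 := by
    obtain ⟨β, hβ⟩ := exists_associated_pow_of_mul_eq_pow' hbac h'
    exact R1_sq_of_assoc hβ
  refine ⟨?_, hB⟩
  obtain ⟨g, hg⟩ : ∃ g : 𝓞 K4, Associated (g ^ 2) (a * (a ^ 2 - 2 * b ^ 2)) := by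
    rw [mul_comm] at h'
    exact exists_associated_pow_of_mul_eq_pow' hbac.symm h'
  by_cases hla : lam ∣ a
  · obtain ⟨e, rfl⟩ := hla
    have heb : IsCoprime e b := hab.of_mul_left_right
    have hlb : IsCoprime lam b := hab.of_mul_left_left
    have hc : (lam * e) * ((lam * e) ^ 2 - 2 * b ^ 2) =
        lam ^ 2 * (lam * (e * (e ^ 2 + iO * b ^ 2))) := by
      linear_combination (-(lam * e * b ^ 2)) * h2
    rw [hc] at hg
    have hlg : lam ∣ g := by
      have h5 : lam ∣ g ^ 2 := by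
        refine (Associated.dvd_iff_dvd_right hg).2 ?_
        exact Dvd.intro _ (by ring : lam * (lam * (lam * (e * (e ^ 2 + iO * b ^ 2)))) = _)
      exact lam_prime.dvd_of_dvd_pow h5
    obtain ⟨g', rfl⟩ := hlg
    have hg' : Associated (g' ^ 2) (lam * (e * (e ^ 2 + iO * b ^ 2))) := by
      rw [mul_pow] at hg
      exact Associated.of_mul_left hg (Associated.refl _) (pow_ne_zero 2 lam_ne_zero)
    have hec : IsCoprime e (e ^ 2 + iO * b ^ 2) := by
      have e1 : e ^ 2 + iO * b ^ 2 = iO * b ^ 2 + e * e := by ring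
      rw [e1]
      exact IsCoprime.add_mul_left_right (IsCoprime.mul_right (R1_cop e) heb.pow_right) _
    by_cases hle : lam ∣ e
    · have hlc : IsCoprime lam (e ^ 2 + iO * b ^ 2) := by
        obtain ⟨f, rfl⟩ := hle
        have e1 : (lam * f) ^ 2 + iO * b ^ 2 = iO * b ^ 2 + lam * (lam * f ^ 2) := by ring
        rw [e1]
        exact IsCoprime.add_mul_left_right (IsCoprime.mul_right (R1_cop lam) hlb.pow_right) _
      have h6 : IsCoprime (lam * e) (e ^ 2 + iO * b ^ 2) := IsCoprime.mul_left hlc hec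
      rw [← mul_assoc] at hg'
      obtain ⟨α, hα⟩ := exists_associated_pow_of_associated_pow_mul h6 hg'
      obtain ⟨d, h7 | h7⟩ := R1_sq_of_assoc hα
      · exact ⟨d, Or.inl h7⟩
      · exact ⟨d, Or.inr (Or.inl h7)⟩
    · have hel : IsCoprime e lam := (lam_prime.coprime_iff_not_dvd.2 hle).symm
      have h6 : IsCoprime e (lam * (e ^ 2 + iO * b ^ 2)) := IsCoprime.mul_right hel hec
      have h8 : lam * (e * (e ^ 2 + iO * b ^ 2)) = e * (lam * (e ^ 2 + iO * b ^ 2)) := by ring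
      rw [h8] at hg'
      obtain ⟨α, hα⟩ := exists_associated_pow_of_associated_pow_mul h6 hg'
      obtain ⟨d, h7 | h7⟩ := R1_sq_of_assoc hα
      · exact ⟨d, Or.inr (Or.inr (Or.inl (by rw [← h7])))⟩
      · exact ⟨d, Or.inr (Or.inr (Or.inr (by rw [h7]; ring)))⟩
  · have hal : IsCoprime a lam := (lam_prime.coprime_iff_not_dvd.2 hla).symm
    have hac : IsCoprime a (a ^ 2 - 2 * b ^ 2) := by
      have e1 : a ^ 2 - 2 * b ^ 2 = iO * lam ^ 2 * b ^ 2 + a * a := by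
        rw [h2]
        ring
      rw [e1]
      refine IsCoprime.add_mul_left_right ?_ _
      exact IsCoprime.mul_right (IsCoprime.mul_right (R1_cop a)
        hal.pow_right) hab.pow_right
    obtain ⟨α, hα⟩ := exists_associated_pow_of_associated_pow_mul hac hg
    obtain ⟨d, h7 | h7⟩ := R1_sq_of_assoc hα
    · exact ⟨d, Or.inl h7⟩
    · exact ⟨d, Or.inr (Or.inl h7)⟩

/-- The abscissae. -/
theorem abs4 (x y : K4) (hx : x ≠ 0) (hE : y ^ 2 = x ^ 3 - 2 * x) :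
    ∃ w : K4, x = w ^ 2 ∨ x = ((iO : 𝓞 K4) : K4) * w ^ 2 ∨ x = ((lam : 𝓞 K4) : K4) * w ^ 2 ∨
      x = ((iO : 𝓞 K4) : K4) * ((lam : 𝓞 K4) : K4) * w ^ 2 := by
  -- as ntC/ArK.lean (`ar`, `abs8`)
  obtain ⟨A, hA⟩ : ∃ A : 𝓞 K4 →+* K4, A = algebraMap (𝓞 K4) K4 := ⟨_, rfl⟩
  have hAi : Function.Injective A := by
    rw [hA]
    exact FaithfulSMul.algebraMap_injective (𝓞 K4) K4
  obtain ⟨I, hI⟩ : ∃ I : K4, I = A iO := ⟨_, rfl⟩
  obtain ⟨L, hL⟩ : ∃ L : K4, L = A lam := ⟨_, rfl⟩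
  have hI2 : I ^ 2 = -1 := by
    rw [hI, ← map_pow, iO_sq, map_neg, map_one]
  have hI0 : I ≠ 0 := by
    intro h0
    rw [h0] at hI2
    norm_num at hI2
  suffices hs : ∃ w : K4, x = w ^ 2 ∨ x = I * w ^ 2 ∨ x = L * w ^ 2 ∨ x = I * L * w ^ 2 by
    rw [hI, hL, hA] at hs
    exact hs
  obtain ⟨a, b, hab, hx'⟩ := IsFractionRing.exists_reduced_fraction (𝓞 K4) x
  have hxb : x * A (b : 𝓞 K4) = A a := by
    rw [← hx', hA]
    exact IsLocalization.mk'_spec _ a b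
  have hbn := nonZeroDivisors.ne_zero b.2
  obtain ⟨b', hb'⟩ : ∃ b' : 𝓞 K4, b' = (b : 𝓞 K4) := ⟨_, rfl⟩
  rw [← hb'] at hxb hab hbn
  have hb0 : A b' ≠ 0 := by
    intro h0
    exact hbn (hAi (by rw [h0, map_zero]))
  have hab' : IsCoprime a b' := hab.isCoprime
  have ha : a ≠ 0 := by
    rintro rfl
    rw [map_zero] at hxb
    exact (mul_ne_zero hx hb0) hxb
  have h1 : (y * A b' ^ 2) ^ 2 = A (a * b' * (a ^ 2 - 2 * b' ^ 2)) := by
    have e2 : A 2 = 2 := map_ofNat _ 2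
    simp only [map_mul, map_sub, map_pow, e2]
    rw [mul_pow, hE, ← hxb]
    ring
  obtain ⟨t, ht⟩ := IsIntegrallyClosed.exists_algebraMap_eq_of_isIntegral_pow (R := 𝓞 K4)
    (x := y * A b' ^ 2) (n := 2) two_pos (by
      rw [h1, hA]
      exact isIntegral_algebraMap)
  rw [← hA] at ht
  have h2 : a * b' * (a ^ 2 - 2 * b' ^ 2) = t ^ 2 := by
    apply hAi
    rw [← h1, map_pow, ht]
  obtain ⟨⟨α, hα⟩, β, hβ⟩ := R1_ar a b' t ha hab' h2
  have hx1 : x = A a / A b' := by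
    rw [eq_div_iff hb0, hxb]
  rcases hβ with hb | hb
  · have hβ0 : A β ≠ 0 := by
      intro h0
      apply hb0
      rw [hb, map_pow, h0]
      ring
    refine ⟨A α / A β, ?_⟩
    rcases hα with h | h | h | h
    · left
      rw [hx1, h, hb, map_pow, map_pow, div_pow]
    · right; left
      rw [hx1, h, hb, map_mul, map_pow, map_pow, div_pow, ← hI]
      ring
    · right; right; left
      rw [hx1, h, hb, map_mul, map_pow, map_pow, div_pow, ← hL]
      ring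
    · right; right; right
      rw [hx1, h, hb, map_mul, map_mul, map_pow, map_pow, div_pow, ← hL, ← hI]
      ring
  · have hβ0 : A β ≠ 0 := by
      intro h0
      apply hb0
      rw [hb, map_mul, map_pow, h0]
      ring
    have e1 : A b' = I * A β ^ 2 := by
      rw [hb, map_mul, map_pow, ← hI]
    rcases hα with h | h | h | h
    · refine ⟨I * (A α / A β), Or.inr (Or.inl ?_)⟩
      rw [hx1, h, e1, map_pow]
      field_simp
      linear_combination (-(I ^ 2 - 1) * A α ^ 2) * hI2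
    · refine ⟨A α / A β, Or.inl ?_⟩
      rw [hx1, h, e1, map_mul, map_pow, ← hI]
      field_simp
    · refine ⟨I * (A α / A β), Or.inr (Or.inr (Or.inr ?_))⟩
      rw [hx1, h, e1, map_mul, map_pow, ← hL]
      field_simp
      linear_combination (-(I ^ 2 - 1) * L * A α ^ 2) * hI2
    · refine ⟨A α / A β, Or.inr (Or.inr (Or.inl ?_))⟩
      rw [hx1, h, e1, map_mul, map_mul, map_pow, ← hL, ← hI]
      field_simp

end Pool.Agent.Lib.MP_1a91b9_ntQH.R4
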