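import Pool.Agent.Lib.MP_1a91b9_ntQ.A.LocDef4
import Pool.Agent.Lib.MP_1a91b9_ntQ.R.Arith4
import Pool.Agent.Lib.MP_1a91b9_ntQ.C.Cfn
import Pool.Agent.Lib.MP_1a91b9_nuI.Ho.Hom
import Pool.Agent.Lib.MP_1a91b9_ntC.Tors
import Pool.Agent.Lib.MP_17a322_nt.VJ.MW4

/-!
# MP_1a91b9_nt (abelian extensions of exponent four): the rank of `y² = x³ - 2 x` over `ℚ(i)` is two

The descent by `1 - i` on `y² = x³ - d x`: a point whose abscissa is a nonzero square is divisible by `1 - i`; the sum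
of two points whose abscissae have a square product is divisible by `1 - i`, or it is `(0, 0)`. If `-d` is not a square
and every nonzero abscissa is a square up to the factors `1, -d, e, -d e`, then the index of the multiples of `1 - i` is
at most `4`.
-/

set_option autoImplicit false
set_option linter.unusedSectionVars false

namespace Pool.Agent.Lib.MP_1a91b9_ntQH.R4

open NumberField WeierstrassCurve Module
open Pool.Agent.Lib.MP_1a91b9_nuT Pool.Agent.Lib.MP_1a91b9_ntQ
open Pool.Agent.Lib.MP_1a91b9_ntQ.C (IsQ cq mu omP tq mu_some mu_om mu_mu om_om negY_eq y_zero add_tq tq_add_self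
  mu_ker_all cfn cfn_sq mu_ne_cases tq_ne)
open Pool.Agent.Lib.MP_1a91b9_nuI (add_pt)
open scoped Classical

section

variable {N : Type*} [Field N] [CharZero N] {W : Affine N} {z d : N}

private theorem R2_congr {x x' y y' : N} (hx : x = x') (hy : y = y') (h1 : W.Nonsingular x y)
    (h2 : W.Nonsingular x' y') : Affine.Point.some x y h1 = Affine.Point.some x' y' h2 := by
  subst hx
  subst hy
  rfl

/-- A point whose abscissa is a nonzero square is divisible by `1 - i`. -/
private theorem R2_sq (h : IsQ W z d) {x y w : N} (hn : W.Nonsingular x y) (hw : w ≠ 0)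
    (hx : x = w ^ 2) : (Affine.Point.some x y hn) ∈ (mu h).range := by
  have hE := (h.nons x y).1 hn
  have hz := h.hz
  have hd := h.hd
  obtain ⟨u, hu⟩ : ∃ u, u = y / w := ⟨_, rfl⟩
  have huw : u * w = y := by rw [hu, div_mul_cancel₀ _ hw]
  have hu2 : u ^ 2 = w ^ 4 - d := by
    refine mul_right_cancel₀ (pow_ne_zero 2 hw) ?_
    rw [← mul_pow, huw, hE, hx]
    ring
  obtain ⟨X, hX⟩ : ∃ X, X = -z * (u + w ^ 2) := ⟨_, rfl⟩
  have hq : X ^ 2 + 2 * z * w ^ 2 * X = d := by
    rw [hX]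
    linear_combination ((u + w ^ 2) ^ 2 - 2 * w ^ 2 * (u + w ^ 2)) * hz - hu2
  have hX0 : X ≠ 0 := by
    intro h0
    apply hd
    rw [← hq, h0]
    ring
  have hS : W.Nonsingular X ((1 - z) * X * w) := by
    rw [h.nons]
    linear_combination (X ^ 2 * w ^ 2) * hz - X * hq
  refine ⟨Affine.Point.some X _ hS, ?_⟩
  obtain ⟨x', y', hn', e1, e2, e3⟩ := mu_some h hS hX0
  have hs : (1 + z) * ((1 - z) * X * w) / (2 * X) = w := by
    rw [div_eq_iff (mul_ne_zero two_ne_zero hX0)]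
    linear_combination (-X * w) * hz
  rw [hs] at e2 e3
  rw [e1]
  refine R2_congr ?_ ?_ _ _
  · rw [e2, hx]
  · rw [e3, ← huw, hX]
    linear_combination (-(u + w ^ 2) * w) * hz

/-- `x₁ x₂` is a square: the sum is divisible by `1 - i`, or it is `(0, 0)`. -/
private theorem R2_sum (h : IsQ W z d) {x₁ y₁ x₂ y₂ v : N} (h₁ : W.Nonsingular x₁ y₁)
    (h₂ : W.Nonsingular x₂ y₂) (hv : v ≠ 0) (hx : x₁ * x₂ = v ^ 2) :
    (Affine.Point.some x₁ y₁ h₁ + Affine.Point.some x₂ y₂ h₂) ∈ (mu h).range ∨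
      Affine.Point.some x₁ y₁ h₁ + Affine.Point.some x₂ y₂ h₂ = tq h := by
  have hE₁ := (h.nons x₁ y₁).1 h₁
  have hE₂ := (h.nons x₂ y₂).1 h₂
  have ha1 : W.a₁ = 0 := by rw [h.eq, cq]
  have ha3 : W.a₃ = 0 := by rw [h.eq, cq]
  have ha2 : W.a₂ = 0 := by rw [h.eq, cq]
  by_cases hxx : x₁ = x₂
  · subst hxx
    left
    have hyy : (y₁ - y₂) * (y₁ + y₂) = 0 := by linear_combination hE₁ - hE₂
    rcases mul_eq_zero.1 hyy with e | e
    · have e2 : y₁ = y₂ := by linear_combination e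
      subst e2
      refine ⟨omP h (mu h (Affine.Point.some x₁ y₁ h₁)), ?_⟩
      rw [mu_om, mu_mu, map_neg, map_nsmul, om_om, smul_neg, neg_neg, two_nsmul]
    · have e2 : Affine.Point.some x₁ y₂ h₂ = -Affine.Point.some x₁ y₁ h₁ := by
        rw [Affine.Point.neg_some, Affine.Point.some.injEq, negY_eq h]
        exact ⟨rfl, by linear_combination e⟩
      rw [e2, add_neg_cancel]
      exact zero_mem _
  · have hs : x₁ - x₂ ≠ 0 := sub_ne_zero.2 hxx
    obtain ⟨l, hl⟩ : ∃ l, l = (y₁ - y₂) / (x₁ - x₂) := ⟨_, rfl⟩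
    have hl' : l * (x₁ - x₂) = y₁ - y₂ := by
      rw [hl, div_mul_cancel₀ _ hs]
    obtain ⟨x₃, hx₃⟩ : ∃ x₃, x₃ = l ^ 2 - W.a₂ - x₁ - x₂ := ⟨_, rfl⟩
    obtain ⟨hn, e1⟩ := add_pt W ha1 ha3 h₁ h₂ hxx l x₃ _ hl' hx₃ rfl
    rw [e1]
    rw [ha2] at hx₃
    have key : x₁ * x₂ * x₃ = (y₁ - l * x₁) ^ 2 := by
      refine mul_right_cancel₀ (pow_ne_zero 2 hs) ?_
      rw [hx₃]
      linear_combination (x₁ * (x₁ - x₂) * (y₁ + y₂ - l * (x₁ - x₂))) * hl' +
        (x₂ * (x₁ - x₂)) * hE₁ - (x₁ * (x₁ - x₂)) * hE₂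
    by_cases h0 : x₃ = 0
    · right
      subst h0
      have hy := y_zero h hn
      unfold tq
      exact R2_congr rfl hy _ _
    · left
      have hx3 : x₃ = ((y₁ - l * x₁) / v) ^ 2 := by
        rw [hx] at key
        rw [div_pow, ← key]
        field_simp
      refine R2_sq h hn ?_ hx3
      intro h2
      apply h0
      rw [hx3, h2]
      ring

/-- If `-d` is not a square, the sum is divisible by `1 - i`. -/
private theorem R2_sums (h : IsQ W z d) (hm : ¬ IsSquare (-d)) {x₁ y₁ x₂ y₂ v : N}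
    (h₁ : W.Nonsingular x₁ y₁) (h₂ : W.Nonsingular x₂ y₂) (hv : v ≠ 0) (hx : x₁ * x₂ = v ^ 2) :
    (Affine.Point.some x₁ y₁ h₁ + Affine.Point.some x₂ y₂ h₂) ∈ (mu h).range := by
  rcases R2_sum h h₁ h₂ hv hx with e | e
  · exact e
  · exfalso
    have hx₁ : x₁ ≠ 0 := by
      rintro rfl
      rw [zero_mul] at hx
      exact pow_ne_zero 2 hv hx.symm
    have e2 : Affine.Point.some x₂ y₂ h₂ = -Affine.Point.some x₁ y₁ h₁ + tq h := by
      rw [← e]
      abel
    have h₁' : W.Nonsingular x₁ (-y₁) := by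
      rw [h.nons]
      rw [h.nons] at h₁
      linear_combination h₁
    have e3 : -Affine.Point.some x₁ y₁ h₁ = Affine.Point.some x₁ (-y₁) h₁' := by
      rw [Affine.Point.neg_some, Affine.Point.some.injEq, negY_eq h]
      exact ⟨rfl, rfl⟩
    obtain ⟨hn', e4⟩ := add_tq h h₁' hx₁
    rw [e3, e4, Affine.Point.some.injEq] at e2
    apply hm
    refine ⟨v, ?_⟩
    rw [← pow_two, ← hx, e2.1, mul_div_cancel₀ _ hx₁]

private theorem R2_two (h : IsQ W z d) (P : W.Point) : 2 • P ∈ (mu h).range :=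
  ⟨omP h (mu h P), by rw [mu_om, mu_mu, map_neg, map_nsmul, om_om, smul_neg, neg_neg]⟩

/-- The classes modulo the multiples of `1 - i`. -/
private theorem R2_four (h : IsQ W z d) (hm : ¬ IsSquare (-d)) {e : N} (he : e ≠ 0)
    (hx : ∀ x y : N, W.Nonsingular x y → x ≠ 0 →
      ∃ w : N, x = w ^ 2 ∨ x = -d * w ^ 2 ∨ x = e * w ^ 2 ∨ x = -d * e * w ^ 2) :
    ∃ R : W.Point, ∀ P : W.Point, ∃ a b : Bool,
      P + ((if a then tq h else 0) + if b then R else 0) ∈ (mu h).range := by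
  have hd := h.hd
  -- the classes `1` and `-d`
  have c1 : ∀ (x y w : N) (hn : W.Nonsingular x y), x ≠ 0 → x = w ^ 2 →
      Affine.Point.some x y hn ∈ (mu h).range := by
    intro x y w hn h0 hw
    refine R2_sq h hn ?_ hw
    rintro rfl
    exact h0 (by rw [hw]; ring)
  have c2 : ∀ (x y w : N) (hn : W.Nonsingular x y), x ≠ 0 → x = -d * w ^ 2 →
      Affine.Point.some x y hn + tq h ∈ (mu h).range := by
    intro x y w hn h0 hw
    have hw0 : w ≠ 0 := by
      rintro rfl
      exact h0 (by rw [hw]; ring)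
    obtain ⟨hn', e1⟩ := add_tq h hn h0
    rw [e1]
    refine R2_sq h (w := 1 / w) hn' (div_ne_zero one_ne_zero hw0) ?_
    rw [hw]
    field_simp
  -- the classes `e` and `-d e`
  have hc : ∀ (x y w : N) (hn : W.Nonsingular x y), x ≠ 0 → x = -d * e * w ^ 2 →
      ∃ (x' y' w' : N) (hn' : W.Nonsingular x' y'), x' ≠ 0 ∧ x' = e * w' ^ 2 ∧
        Affine.Point.some x y hn + tq h = Affine.Point.some x' y' hn' := by
    intro x y w hn h0 hw
    have hw0 : w ≠ 0 := by
      rintro rfl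
      exact h0 (by rw [hw]; ring)
    obtain ⟨hn', e1⟩ := add_tq h hn h0
    refine ⟨_, _, 1 / (e * w), hn', div_ne_zero (neg_ne_zero.2 hd) h0, ?_, e1⟩
    rw [hw]
    field_simp
  have tt : ∀ P : W.Point, P + tq h + tq h = P := fun P => by
    rw [add_assoc, tq_add_self, add_zero]
  by_cases hR : ∃ (x y w : N), W.Nonsingular x y ∧ x ≠ 0 ∧ x = e * w ^ 2
  · obtain ⟨x₀, y₀, w₀, hn₀, hx₀, hw₀⟩ := hR
    have hw00 : w₀ ≠ 0 := by
      rintro rfl
      exact hx₀ (by rw [hw₀]; ring)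
    have c3 : ∀ (x y w : N) (hn : W.Nonsingular x y), x ≠ 0 → x = e * w ^ 2 →
        Affine.Point.some x y hn + Affine.Point.some x₀ y₀ hn₀ ∈ (mu h).range := by
      intro x y w hn h0 hw
      have hw0 : w ≠ 0 := by
        rintro rfl
        exact h0 (by rw [hw]; ring)
      refine R2_sums h hm hn hn₀ (v := e * w * w₀) (mul_ne_zero (mul_ne_zero he hw0) hw00) ?_
      rw [hw, hw₀]
      ring
    refine ⟨Affine.Point.some x₀ y₀ hn₀, fun P => ?_⟩
    rcases P with _ | ⟨x, y, hn⟩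
    · refine ⟨false, false, ?_⟩
      simp only [Bool.false_eq_true, if_false, add_zero]
      exact zero_mem _
    · by_cases h0 : x = 0
      · subst h0
        refine ⟨true, false, ?_⟩
        simp only [Bool.false_eq_true, if_false, if_true, add_zero]
        have e1 : Affine.Point.some 0 y hn = tq h := R2_congr rfl (y_zero h hn) _ _
        rw [e1, tq_add_self]
        exact zero_mem _
      · obtain ⟨w, hw | hw | hw | hw⟩ := hx x y hn h0
        · refine ⟨false, false, ?_⟩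
          simp only [Bool.false_eq_true, if_false, add_zero]
          exact c1 x y w hn h0 hw
        · refine ⟨true, false, ?_⟩
          simp only [Bool.false_eq_true, if_false, if_true, add_zero]
          exact c2 x y w hn h0 hw
        · refine ⟨false, true, ?_⟩
          simp only [Bool.false_eq_true, if_false, if_true, zero_add]
          exact c3 x y w hn h0 hw
        · refine ⟨true, true, ?_⟩
          simp only [if_true]
          obtain ⟨x', y', w', hn', h0', hw', e1⟩ := hc x y w hn h0 hw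
          rw [← add_assoc, e1]
          exact c3 x' y' w' hn' h0' hw'
  · refine ⟨0, fun P => ?_⟩
    rcases P with _ | ⟨x, y, hn⟩
    · refine ⟨false, false, ?_⟩
      simp only [Bool.false_eq_true, if_false, add_zero]
      exact zero_mem _
    · by_cases h0 : x = 0
      · subst h0
        refine ⟨true, false, ?_⟩
        simp only [Bool.false_eq_true, if_false, if_true, add_zero]
        have e1 : Affine.Point.some 0 y hn = tq h := R2_congr rfl (y_zero h hn) _ _
        rw [e1, tq_add_self]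
        exact zero_mem _
      · obtain ⟨w, hw | hw | hw | hw⟩ := hx x y hn h0
        · refine ⟨false, false, ?_⟩
          simp only [Bool.false_eq_true, if_false, add_zero]
          exact c1 x y w hn h0 hw
        · refine ⟨true, false, ?_⟩
          simp only [Bool.false_eq_true, if_false, if_true, add_zero]
          exact c2 x y w hn h0 hw
        · exact absurd ⟨x, y, w, hn, h0, hw⟩ hR
        · obtain ⟨x', y', w', hn', h0', hw', e1⟩ := hc x y w hn h0 hw
          exact absurd ⟨x', y', w', hn', h0', hw'⟩ hR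

/-- **The index of the multiples of `1 - i` is at most four.** -/
private theorem R2_index (h : IsQ W z d) (hm : ¬ IsSquare (-d)) {e : N} (he : e ≠ 0)
    (hx : ∀ x y : N, W.Nonsingular x y → x ≠ 0 →
      ∃ w : N, x = w ^ 2 ∨ x = -d * w ^ 2 ∨ x = e * w ^ 2 ∨ x = -d * e * w ^ 2) :
    (mu h).range.index ≤ 4 ∧ (mu h).range.index ≠ 0 := by
  obtain ⟨R, hR⟩ := R2_four h hm he hx
  have hs : Function.Surjective (fun c : Bool × Bool =>
      (QuotientAddGroup.mk (-((if c.1 then tq h else 0) + if c.2 then R else 0)) :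
        W.Point ⧸ (mu h).range)) := by
    intro q
    obtain ⟨P, rfl⟩ := QuotientAddGroup.mk_surjective q
    obtain ⟨a, b, hab⟩ := hR P
    refine ⟨(a, b), ?_⟩
    rw [QuotientAddGroup.eq, neg_neg, add_comm]
    exact hab
  have hf : Finite (W.Point ⧸ (mu h).range) := Finite.of_surjective _ hs
  constructor
  · have h1 := Nat.card_le_card_of_surjective _ hs
    have h2 : Nat.card (Bool × Bool) = 4 := by
      rw [Nat.card_prod]
      simp
    rw [h2] at h1
    exact h1
  · exact Nat.card_pos.ne'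

end


section

variable {M : Type*} [AddCommGroup M] [Module.Finite ℤ M]

/-- the rank -/
private theorem R2_herb (mu om : M →+ M) (hmu : ∀ x, mu (mu x) = -(2 • om x)) (hom : ∀ x, om (om x) = -x)
    (t : M) (ht : 2 • t = 0) (htr : t ∉ mu.range) (hi : mu.range.index ≤ 4) (hi0 : mu.range.index ≠ 0) (x0 : M)
    (hx0 : ¬ IsOfFinAddOrder x0) : finrank ℤ M = 2 := by
  apply le_antisymm
  · obtain ⟨S, hS⟩ : ∃ S : Submodule ℤ M, S = Submodule.torsion ℤ M := ⟨_, rfl⟩
    have hfree : Module.Free ℤ (M ⧸ S) := by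
      rw [hS]
      infer_instance
    have hmS : ∀ y : M, y ∈ S ↔ IsOfFinAddOrder y := by
      intro y
      rw [hS]
      exact Pool.Agent.Lib.MP_1a91b9_ntC.mem_tors
    have hle : S ≤ S.comap mu.toIntLinearMap := by
      intro y hy
      rw [Submodule.mem_comap, hmS]
      exact AddMonoidHom.isOfFinAddOrder mu ((hmS _).1 hy)
    have hle' : S ≤ S.comap om.toIntLinearMap := by
      intro y hy
      rw [Submodule.mem_comap, hmS]
      exact AddMonoidHom.isOfFinAddOrder om ((hmS _).1 hy)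
    have htS : t ∈ S := by
      rw [hmS, isOfFinAddOrder_iff_nsmul_eq_zero]
      exact ⟨2, two_pos, ht⟩
    obtain ⟨m, hm⟩ : ∃ m : (M ⧸ S) →+ (M ⧸ S), ∀ y : M, m (S.mkQ y) = S.mkQ (mu y) :=
      ⟨(S.mapQ S mu.toIntLinearMap hle).toAddMonoidHom, fun y => rfl⟩
    obtain ⟨o, ho⟩ : ∃ o : (M ⧸ S) →+ (M ⧸ S), ∀ y : M, o (S.mkQ y) = S.mkQ (om y) :=
      ⟨(S.mapQ S om.toIntLinearMap hle').toAddMonoidHom, fun y => rfl⟩
    have hmm : ∀ q, m (m q) = -(2 • o q) := by
      intro q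
      obtain ⟨y, rfl⟩ := S.mkQ_surjective q
      rw [hm, hm, hmu, ho, map_neg, map_nsmul]
    have hoo : ∀ q, o (o q) = -q := by
      intro q
      obtain ⟨y, rfl⟩ := S.mkQ_surjective q
      rw [ho, ho, hom, map_neg]
    have hi2 : m.range.index ≤ 2 := by
      have h1 : (m.range.comap S.mkQ.toAddMonoidHom).index = m.range.index :=
        AddSubgroup.index_comap_of_surjective _ S.mkQ_surjective
      have h2 : mu.range ≤ m.range.comap S.mkQ.toAddMonoidHom := by
        rintro _ ⟨y, rfl⟩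
        exact ⟨S.mkQ y, hm y⟩
      have h3 : t ∈ m.range.comap S.mkQ.toAddMonoidHom := by
        have h4 : S.mkQ t = 0 := (Submodule.Quotient.mk_eq_zero S).2 htS
        show S.mkQ t ∈ m.range
        rw [h4]
        exact zero_mem _
      have h4 := AddSubgroup.relIndex_mul_index h2
      rw [h1] at h4
      have h5 : mu.range.relIndex (m.range.comap S.mkQ.toAddMonoidHom) ≠ 1 := by
        rw [Ne, AddSubgroup.relIndex_eq_one]
        exact fun h => htr (h h3)
      have h6 : mu.range.relIndex (m.range.comap S.mkQ.toAddMonoidHom) ≠ 0 := by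
        intro h
        rw [h, zero_mul] at h4
        exact hi0 h4.symm
      by_contra h7
      have h8 : 2 * 3 ≤ mu.range.relIndex (m.range.comap S.mkQ.toAddMonoidHom) * m.range.index :=
        Nat.mul_le_mul (by omega) (by omega)
      rw [h4] at h8
      omega
    have h1 : (nsmulAddMonoidHom (α := M ⧸ S) 2).range = m.range.map m := by
      ext q
      constructor
      · rintro ⟨y, rfl⟩
        refine ⟨m (o y), ⟨o y, rfl⟩, ?_⟩
        rw [hmm, hoo]
        simp
      · rintro ⟨_, ⟨y, rfl⟩, rfl⟩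
        refine ⟨-(o y), ?_⟩
        rw [hmm]
        simp
    have h2 := AddSubgroup.index_range_nsmul (M ⧸ S) 2
    rw [h1, AddSubgroup.index_map] at h2
    have h3 : (m.range ⊔ m.ker).index ∣ m.range.index := AddSubgroup.index_dvd_of_le le_sup_left
    have h0 : 0 < m.range.index := by
      rcases Nat.eq_zero_or_pos m.range.index with h | h
      · rw [h, mul_zero] at h2
        exact absurd h2.symm (pow_ne_zero _ two_ne_zero)
      · exact h
    have h4 := Nat.le_of_dvd h0 h3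
    have h5 : 2 ^ finrank ℤ (M ⧸ S) ≤ 2 ^ 2 := by
      rw [← h2]
      exact (Nat.mul_le_mul (h4.trans hi2) hi2).trans (by norm_num)
    have h6 : finrank ℤ (M ⧸ S) ≤ 2 := (Nat.pow_le_pow_iff_right (by norm_num)).1 h5
    have h7 : finrank ℤ (M ⧸ S) = finrank ℤ M := by
      unfold finrank
      rw [hS, rank_quotient_eq_of_le_torsion le_rfl]
    rw [← h7]
    exact h6
  · have hli : LinearIndependent ℤ ![x0, om x0] := by
      rw [LinearIndependent.pair_iff]
      intro a b hab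
      have h1 : a • om x0 + b • om (om x0) = 0 := by
        rw [← map_zsmul, ← map_zsmul, ← map_add, hab, map_zero]
      rw [hom] at h1
      have h2 : (a ^ 2 + b ^ 2) • x0 = 0 := by
        have e1 : (a ^ 2 + b ^ 2) • x0 =
            a • (a • x0 + b • om x0) - b • (a • om x0 + b • -x0) := by
          module
        rw [e1, hab, h1, smul_zero, smul_zero, sub_zero]
      have h3 : a ^ 2 + b ^ 2 = 0 := by
        by_contra h
        exact hx0 (isOfFinAddOrder_iff_zsmul_eq_zero.2 ⟨_, h, h2⟩)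
      constructor
      · nlinarith [sq_nonneg a, sq_nonneg b]
      · nlinarith [sq_nonneg a, sq_nonneg b]
    have h := hli.fintype_card_le_finrank
    simpa using h

end

/-- an integral square is the square of an integer -/
private theorem R2_int {w : K4} {e : 𝓞 K4} (h : w ^ 2 = (e : K4)) : ∃ t : 𝓞 K4, t ^ 2 = e := by
  obtain ⟨t, ht⟩ := IsIntegrallyClosed.exists_algebraMap_eq_of_isIntegral_pow (R := 𝓞 K4)
    (x := w) (n := 2) two_pos (by
      rw [h]
      exact isIntegral_algebraMap)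
  refine ⟨t, ?_⟩
  apply FaithfulSMul.algebraMap_injective (𝓞 K4) K4
  rw [map_pow, ht, h]

/-- `i` is not a square -/
private theorem R2_i (w : K4) : w ^ 2 ≠ ((iO : 𝓞 K4) : K4) := by
  intro h
  obtain ⟨t, ht⟩ := R2_int h
  have h1 := cp_mul t t
  rw [← pow_two, ht, cp_iO] at h1
  have h2 := congrArg Prod.snd h1
  dsimp only at h2
  have h3 : (cp t).2 * (cp t).1 = (cp t).1 * (cp t).2 := mul_comm _ _
  omega

/-- `lam` times a unit is not a square -/
private theorem R2_lam {u : 𝓞 K4} (hu : IsUnit u) (w : K4) : w ^ 2 ≠ ((lam * u : 𝓞 K4) : K4) := by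
  intro h
  obtain ⟨t, ht⟩ := R2_int h
  have h2 : lam ∣ t := lam_prime.dvd_of_dvd_pow (n := 2) (ht ▸ dvd_mul_right _ _)
  obtain ⟨s, rfl⟩ := h2
  have h3 : lam * s ^ 2 = u := by
    refine mul_left_cancel₀ lam_prime.ne_zero ?_
    linear_combination ht
  exact lam_prime.not_isUnit (isUnit_of_dvd_unit ⟨s ^ 2, h3.symm⟩ hu)

private theorem R2_c2 : ((2 : 𝓞 K4) : K4) = 2 := map_ofNat (algebraMap (𝓞 K4) K4) 2

private theorem R2_ci : ((iO : 𝓞 K4) : K4) ^ 2 = -1 := by
  have h := congrArg (fun x : 𝓞 K4 => (x : K4)) iO_sq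
  push_cast at h
  exact h

private theorem R2_cl : ((lam : 𝓞 K4) : K4) ^ 2 = 2 * ((iO : 𝓞 K4) : K4) := by
  have h := congrArg (fun x : 𝓞 K4 => (x : K4)) lam_sq
  push_cast at h
  exact h

section

private theorem R2_isQ : IsQ (WD4 2).toAffine ((iO : 𝓞 K4) : K4) 2 := by
  refine ⟨?_, R2_ci, two_ne_zero⟩
  show WD4 2 = cq 2
  unfold WD4 cq
  rw [R2_c2]

/-- `-2` is not a square -/
private theorem R2_m2 : ¬ IsSquare (-2 : K4) := by
  rintro ⟨w, hw⟩
  have hl : ((lam : 𝓞 K4) : K4) ≠ 0 := fun h => lam_prime.ne_zero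
    (FaithfulSMul.algebraMap_injective (𝓞 K4) K4 (by rw [map_zero]; exact h))
  refine R2_i (w / ((lam : 𝓞 K4) : K4)) ?_
  rw [div_pow, div_eq_iff (pow_ne_zero 2 hl), pow_two w, ← hw, R2_cl]
  linear_combination (-2) * R2_ci

/-- `2` is not a square -/
private theorem R2_p2 : ¬ IsSquare (2 : K4) := by
  rintro ⟨w, hw⟩
  apply R2_m2
  refine ⟨((iO : 𝓞 K4) : K4) * w, ?_⟩
  linear_combination (-1 : K4) * hw - w ^ 2 * R2_ci

/-- `(0, 0)` is not divisible by `1 - i` -/
private theorem R2_tq : tq R2_isQ ∉ (mu R2_isQ).range := by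
  rintro ⟨P, hP⟩
  obtain ⟨x, y, hn, rfl, hx⟩ := mu_ne_cases R2_isQ P (by
    rw [hP]
    exact tq_ne R2_isQ)
  obtain ⟨x', y', hn', e1, e2, -⟩ := mu_some R2_isQ hn hx
  rw [e1] at hP
  unfold tq at hP
  rw [Affine.Point.some.injEq] at hP
  have h1 : (1 + ((iO : 𝓞 K4) : K4)) ≠ 0 := by
    intro h
    have h2 : (2 : K4) = 0 := by linear_combination (1 - ((iO : 𝓞 K4) : K4)) * h + R2_ci
    exact two_ne_zero h2
  have hy : y = 0 := by
    have h2 : ((1 + ((iO : 𝓞 K4) : K4)) * y / (2 * x)) ^ 2 = 0 := by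
      rw [← e2]
      exact hP.1
    have h3 := (pow_eq_zero_iff two_ne_zero).1 h2
    rw [div_eq_zero_iff] at h3
    rcases h3 with h3 | h3
    · exact (mul_eq_zero.1 h3).resolve_left h1
    · exact absurd h3 (mul_ne_zero two_ne_zero hx)
  have hE := (R2_isQ.nons x y).1 hn
  apply R2_p2
  refine ⟨x, ?_⟩
  refine mul_left_cancel₀ hx ?_
  rw [hy] at hE
  linear_combination hE

private theorem R2_l1 : ((lam : 𝓞 K4) : K4) = 1 + ((iO : 𝓞 K4) : K4) := by
  show ((1 + iO : 𝓞 K4) : K4) = _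
  push_cast
  rfl

/-- The point `(1 + i, 2 i)`. -/
private theorem R2_q : (WD4 2).toAffine.Nonsingular ((lam : 𝓞 K4) : K4) (2 * ((iO : 𝓞 K4) : K4)) := by
  rw [R2_isQ.nons, R2_l1]
  linear_combination (3 - ((iO : 𝓞 K4) : K4)) * R2_ci - 2 * R2_ci

/-- The point has infinite order. -/
private theorem R2_inf [Module.Finite ℤ (WD4 2).toAffine.Point] :
    ¬ IsOfFinAddOrder (Affine.Point.some _ _ R2_q) := by
  intro h
  have hl : ((lam : 𝓞 K4) : K4) ≠ 0 := fun h => lam_prime.ne_zero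
    (FaithfulSMul.algebraMap_injective (𝓞 K4) K4 (by rw [map_zero]; exact h))
  rcases Pool.Agent.Lib.MP_1a91b9_ntC.tors_div (mu R2_isQ) (tq R2_isQ) (by rw [two_nsmul, tq_add_self])
    (mu_ker_all R2_isQ) R2_tq _ h with h1 | h1
  · obtain ⟨P, hP⟩ := h1
    have h2 := cfn_sq R2_isQ P R2_q hP
    refine R2_lam isUnit_one _ (h2.trans ?_)
    rw [mul_one]
  · obtain ⟨hn', e⟩ := add_tq R2_isQ R2_q hl
    rw [e] at h1
    obtain ⟨P, hP⟩ := h1
    have h2 := cfn_sq R2_isQ P hn' hP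
    refine R2_lam iO_unit _ (h2.trans ?_)
    rw [div_eq_iff hl]
    have h3 : ((lam * iO : 𝓞 K4) : K4) = ((lam : 𝓞 K4) : K4) * ((iO : 𝓞 K4) : K4) :=
      map_mul (algebraMap (𝓞 K4) K4) _ _
    rw [h3]
    linear_combination (-((iO : 𝓞 K4) : K4)) * R2_cl - 2 * R2_ci

private theorem R2_rk (abs4 : ∀ (x y : K4) (_ : x ≠ 0) (_ : y ^ 2 = x ^ 3 - 2 * x),
      ∃ w : K4, x = w ^ 2 ∨ x = ((iO : 𝓞 K4) : K4) * w ^ 2 ∨ x = ((lam : 𝓞 K4) : K4) * w ^ 2 ∨
        x = ((iO : 𝓞 K4) : K4) * ((lam : 𝓞 K4) : K4) * w ^ 2) :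
    Module.finrank ℤ (WD4 2).toAffine.Point = 2 := by
  have hl : ((lam : 𝓞 K4) : K4) ≠ 0 := fun h => lam_prime.ne_zero
    (FaithfulSMul.algebraMap_injective (𝓞 K4) K4 (by rw [map_zero]; exact h))
  have hell : (WD4 2).IsElliptic := by
    refine ⟨isUnit_iff_ne_zero.2 ?_⟩
    rw [WD4_delta, R2_c2]
    norm_num
  have hfg : AddGroup.FG (WD4 2).toAffine.Point :=
    Pool.Agent.Lib.MP_17a322_nt.VJ.mordell_weil (WD4 2)
  have hfin : Module.Finite ℤ (WD4 2).toAffine.Point := Module.Finite.iff_addGroup_fg.2 hfg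
  have hcl := R2_cl
  have hci := R2_ci
  obtain ⟨h4, h0⟩ := R2_index R2_isQ R2_m2 (e := ((lam : 𝓞 K4) : K4)) hl (fun x y hn hx => by
    obtain ⟨w, hw⟩ := abs4 x y hx (by
      have hE := (R2_isQ.nons x y).1 hn
      linear_combination hE)
    rcases hw with hw | hw | hw | hw
    · exact ⟨w, Or.inl hw⟩
    · refine ⟨w / ((lam : 𝓞 K4) : K4), Or.inr (Or.inl ?_)⟩
      rw [hw, div_pow, hcl]
      have h2 : (2 * ((iO : 𝓞 K4) : K4)) ≠ 0 := by
        rw [← hcl]
        exact pow_ne_zero 2 hl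
      rw [mul_div_assoc', eq_div_iff h2]
      linear_combination (2 * w ^ 2) * hci
    · exact ⟨w, Or.inr (Or.inr (Or.inl hw))⟩
    · refine ⟨w / ((lam : 𝓞 K4) : K4), Or.inr (Or.inr (Or.inr ?_))⟩
      rw [hw, div_pow, hcl]
      have h2 : (2 * ((iO : 𝓞 K4) : K4)) ≠ 0 := by
        rw [← hcl]
        exact pow_ne_zero 2 hl
      rw [mul_div_assoc', eq_div_iff h2]
      linear_combination (2 * w ^ 2 * ((lam : 𝓞 K4) : K4)) * hci)
  exact R2_herb (mu R2_isQ) (omP R2_isQ) (fun P => mu_mu R2_isQ P) (fun P => om_om R2_isQ P) (tq R2_isQ)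
    (by rw [two_nsmul, tq_add_self]) R2_tq h4 h0 _ R2_inf

end

/-- **The rank of `y² = x³ - 2 x` over `ℚ(i)` is two.** -/
theorem rk4 [dec : DecidableEq K4]
    (abs4 : ∀ (x y : K4) (_ : x ≠ 0) (_ : y ^ 2 = x ^ 3 - 2 * x),
      ∃ w : K4, x = w ^ 2 ∨ x = ((iO : 𝓞 K4) : K4) * w ^ 2 ∨ x = ((lam : 𝓞 K4) : K4) * w ^ 2 ∨
        x = ((iO : 𝓞 K4) : K4) * ((lam : 𝓞 K4) : K4) * w ^ 2) :
    Module.finrank ℤ (WD4 2).toAffine.Point = 2 := by
  have h : dec = Classical.decEq K4 := Subsingleton.elim _ _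
  subst h
  exact R2_rk abs4

end Pool.Agent.Lib.MP_1a91b9_ntQH.R4
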