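import Pool.Agent.Lib.MP_1a91b9_ntQH.R4.Defs

/-!
# MP_1a91b9_nt (abelian extensions of exponent four): the theta series of `y² = x³ - 2 x` over `ℚ(i)`
-/

set_option autoImplicit false

namespace Pool.Agent.Lib.MP_1a91b9_ntQH.R4

open Real Set Filter Asymptotics

/-! ### The odd theta function -/

/-- `Σ ch x * x * exp (-π x² u / 4)` -/
noncomputable def t1_g (u : ℝ) : ℝ :=
  4 * HurwitzZeta.oddKernel ((1 / 4 : ℝ) : UnitAddCircle) (4 * u) -
    4 * HurwitzZeta.oddKernel ((3 / 4 : ℝ) : UnitAddCircle) (4 * u)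

private theorem t1_res (r : ℤ) {u : ℝ} (hu : 0 < u) (hr : 0 ≤ r) (hr4 : r < 4) :
    HasSum (fun x : ℤ => if x % 4 = r then (x : ℝ) * rexp (-π * (x : ℝ) ^ 2 * u / 4) else 0)
      (4 * HurwitzZeta.oddKernel ((r / 4 : ℝ) : UnitAddCircle) (4 * u)) := by
  have h := (HurwitzZeta.hasSum_int_oddKernel ((r : ℝ) / 4) (by positivity : 0 < 4 * u)).mul_left 4
  have hinj : Function.Injective (fun n : ℤ => 4 * n + r) := by
    intro a b hab
    simp only at hab
    omega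
  have h2 : (fun n : ℤ => 4 * (((n : ℝ) + (r : ℝ) / 4) *
      rexp (-π * ((n : ℝ) + (r : ℝ) / 4) ^ 2 * (4 * u)))) =
      (fun x : ℤ => if x % 4 = r then (x : ℝ) * rexp (-π * (x : ℝ) ^ 2 * u / 4) else 0) ∘
        (fun n : ℤ => 4 * n + r) := by
    funext n
    simp only [Function.comp]
    have h3 : (4 * n + r) % 4 = r := by omega
    rw [if_pos h3]
    push_cast
    have e1 : -π * ((n : ℝ) + (r : ℝ) / 4) ^ 2 * (4 * u) =
        -π * (4 * (n : ℝ) + (r : ℝ)) ^ 2 * u / 4 := by ring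
    rw [e1]
    ring
  rw [h2] at h
  rw [← Function.Injective.hasSum_iff hinj]
  · exact h
  · intro x hx
    rw [if_neg]
    intro h4
    apply hx
    refine ⟨x / 4, ?_⟩
    simp only
    omega

theorem t1_g_sum {u : ℝ} (hu : 0 < u) :
    HasSum (fun x : ℤ => (ch x : ℝ) * (x : ℝ) * rexp (-π * (x : ℝ) ^ 2 * u / 4)) (t1_g u) := by
  have h1 := t1_res 1 hu (by norm_num) (by norm_num)
  have h3 := t1_res 3 hu (by norm_num) (by norm_num)
  have h := h1.sub h3
  have e : t1_g u = 4 * HurwitzZeta.oddKernel (((1 : ℤ) / 4 : ℝ) : UnitAddCircle) (4 * u) -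
      4 * HurwitzZeta.oddKernel (((3 : ℤ) / 4 : ℝ) : UnitAddCircle) (4 * u) := by
    unfold t1_g
    push_cast
    rfl
  rw [e]
  refine h.congr_fun fun x => ?_
  unfold ch
  have h8 : x % 4 = 0 ∨ x % 4 = 1 ∨ x % 4 = 2 ∨ x % 4 = 3 := by omega
  rcases h8 with h | h | h | h <;> simp [h]

private theorem t1_exp (a : ℕ) (n : ℤ) :
    Complex.exp (2 * π * Complex.I * ((a / 4 : ℝ) : ℂ) * n) = Complex.I ^ ((a : ℤ) * n) := by
  have h : Complex.I = Complex.exp (π / 2 * Complex.I) := by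
    rw [Complex.exp_pi_div_two_mul_I]
  conv_rhs => rw [h]
  rw [← Complex.exp_int_mul]
  congr 1
  push_cast
  ring

private theorem t1_gauss (n : ℤ) :
    Complex.I ^ ((1 : ℤ) * n) - Complex.I ^ ((3 : ℤ) * n) = 2 * Complex.I * (ch n : ℂ) := by
  have h4 : Complex.I ^ (4 : ℤ) = 1 := by
    have h : Complex.I ^ (4 : ℤ) = Complex.I ^ (4 : ℕ) := by norm_cast
    rw [h, Complex.I_pow_four]
  obtain ⟨q, r, hn, hr0, hr4⟩ : ∃ q r : ℤ, n = 4 * q + r ∧ 0 ≤ r ∧ r < 4 :=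
    ⟨n / 4, n % 4, by omega, by omega, by omega⟩
  have hz (a : ℤ) : Complex.I ^ (a * n) = Complex.I ^ (a * r) := by
    rw [hn, mul_add, zpow_add₀ Complex.I_ne_zero]
    have h : a * (4 * q) = 4 * (a * q) := by ring
    rw [h, zpow_mul, h4, one_zpow, one_mul]
  have hc : ch n = ch r := by
    have h : n % 4 = r % 4 := by omega
    unfold ch
    rw [h]
  rw [hz, hz, hc]
  have h2 : Complex.I ^ 2 = -1 := Complex.I_sq
  interval_cases r
  · have h : ch 0 = 0 := by decide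
    rw [h]
    simp
  · have h : ch 1 = 1 := by decide
    rw [h]
    have e : Complex.I ^ ((3 : ℤ) * 1) = Complex.I ^ 3 := by norm_cast
    rw [e, one_mul, zpow_one, Int.cast_one]
    linear_combination (-Complex.I) * h2
  · have h : ch 2 = 0 := by decide
    rw [h]
    have e : Complex.I ^ ((3 : ℤ) * 2) = Complex.I ^ 6 := by norm_cast
    have e1 : Complex.I ^ ((1 : ℤ) * 2) = Complex.I ^ 2 := by norm_cast
    have e2 : Complex.I ^ 6 = (Complex.I ^ 2) ^ 3 := by ring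
    rw [e, e1, e2, h2]
    norm_num
  · have h : ch 3 = -1 := by decide
    rw [h]
    have e : Complex.I ^ ((3 : ℤ) * 3) = Complex.I ^ 9 := by norm_cast
    have e1 : Complex.I ^ ((1 : ℤ) * 3) = Complex.I ^ 3 := by norm_cast
    have e2 : Complex.I ^ 9 = (Complex.I ^ 2) ^ 4 * Complex.I := by ring
    rw [e, e1, e2, h2, Int.cast_neg, Int.cast_one]
    linear_combination Complex.I * h2

private theorem t1_sin {u : ℝ} (hu : 0 < u) :
    HurwitzZeta.sinKernel ((1 / 4 : ℝ) : UnitAddCircle) (u / 4) -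
      HurwitzZeta.sinKernel ((3 / 4 : ℝ) : UnitAddCircle) (u / 4) = 2 * t1_g u := by
  have hu4 : 0 < u / 4 := by positivity
  have h1 := HurwitzZeta.hasSum_int_sinKernel (1 / 4) hu4
  have h3 := HurwitzZeta.hasSum_int_sinKernel (3 / 4) hu4
  have h := h1.sub h3
  have hG : HasSum (fun x : ℤ => ((2 * ((ch x : ℝ) * (x : ℝ) *
      rexp (-π * (x : ℝ) ^ 2 * u / 4)) : ℝ) : ℂ)) ((2 * t1_g u : ℝ) : ℂ) :=
    Complex.hasSum_ofReal.mpr ((t1_g_sum hu).mul_left _)
  have hu2 := h.unique (hG.congr_fun fun n => ?_)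
  · exact_mod_cast hu2
  · have g := t1_gauss n
    have e1 := t1_exp 1 n
    have e3 := t1_exp 3 n
    push_cast at e1 e3 g ⊢
    rw [e1, e3]
    have hx : -(π : ℂ) * (n : ℂ) ^ 2 * ((u : ℂ) / 4) = -(π : ℂ) * (n : ℂ) ^ 2 * (u : ℂ) / 4 := by
      ring
    rw [hx]
    have hI := Complex.I_sq
    linear_combination (-Complex.I * n * Complex.exp (-(π : ℂ) * (n : ℂ) ^ 2 * (u : ℂ) / 4)) * g
      - 2 * (n : ℂ) * Complex.exp (-(π : ℂ) * (n : ℂ) ^ 2 * (u : ℂ) / 4) * (ch n : ℂ) * hI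

private theorem t1_pow {x : ℝ} (hx : 0 < x) : x ^ (3 / 2 : ℝ) = x * √x := by
  have h : (3 / 2 : ℝ) = 1 + 1 / 2 := by norm_num
  rw [h, Real.rpow_add hx, Real.rpow_one, Real.sqrt_eq_rpow]

theorem t1_g_inv {u : ℝ} (hu : 0 < u) : t1_g (1 / u) = u * √u * t1_g u := by
  have hs := t1_sin hu
  have e : 1 / (4 * (1 / u)) = u / 4 := by field_simp
  have h0 : t1_g (1 / u) = 4 * (1 / (4 * (1 / u)) ^ (3 / 2 : ℝ)) * (2 * t1_g u) := by
    rw [← hs]
    unfold t1_g
    rw [HurwitzZeta.oddKernel_functional_equation,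
      HurwitzZeta.oddKernel_functional_equation _ (4 * (1 / u)), e]
    ring
  rw [h0, t1_pow (by positivity)]
  have h2 : √(4 * (1 / u)) = 2 / √u := by
    have h4 : √4 = 2 := by
      have h : (4 : ℝ) = 2 ^ 2 := by norm_num
      rw [h, Real.sqrt_sq (by norm_num)]
    rw [Real.sqrt_mul (by norm_num), h4, Real.sqrt_div (by norm_num), Real.sqrt_one]
    ring
  rw [h2]
  have hq : 0 < √u := Real.sqrt_pos.mpr hu
  field_simp

/-! ### The even theta functions -/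

private theorem t1_even (m : ℤ) (hm : 0 < m) {t : ℝ} (ht : 0 < t) :
    HasSum (fun y : ℤ => if y % m = 0 then rexp (-π * (y : ℝ) ^ 2 * t) else 0)
      (HurwitzZeta.evenKernel 0 ((m : ℝ) ^ 2 * t)) := by
  have hm0 : (0 : ℝ) < (m : ℝ) := by exact_mod_cast hm
  have h := HurwitzZeta.hasSum_int_evenKernel 0 (by positivity : 0 < (m : ℝ) ^ 2 * t)
  have hinj : Function.Injective (fun n : ℤ => m * n) := by
    intro a b hab
    exact mul_left_cancel₀ hm.ne' hab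
  have e : (fun n : ℤ => rexp (-π * ((n : ℝ) + 0) ^ 2 * ((m : ℝ) ^ 2 * t))) =
      (fun y : ℤ => if y % m = 0 then rexp (-π * (y : ℝ) ^ 2 * t) else 0) ∘
        (fun n : ℤ => m * n) := by
    funext n
    simp only [Function.comp]
    rw [if_pos (Int.mul_emod_right m n)]
    congr 1
    push_cast
    ring
  rw [e] at h
  rw [← Function.Injective.hasSum_iff hinj]
  · exact_mod_cast h
  · intro x hx
    rw [if_neg]
    intro h4
    apply hx
    exact ⟨x / m, Int.mul_ediv_cancel_of_emod_eq_zero h4⟩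

private theorem t1_even_inv (x : ℝ) :
    HurwitzZeta.evenKernel 0 x = 1 / √x * HurwitzZeta.evenKernel 0 (1 / x) := by
  have h := HurwitzZeta.evenKernel_functional_equation 0 x
  rw [← HurwitzZeta.evenKernel_eq_cosKernel_of_zero, ← Real.sqrt_eq_rpow] at h
  exact h

/-- `Σ od x * exp (-π x² v / 4)` -/
noncomputable def t1_2 (v : ℝ) : ℝ :=
  HurwitzZeta.evenKernel 0 (v / 4) - HurwitzZeta.evenKernel 0 v

/-- `Σ et d * exp (-π d² v / 4)` -/
noncomputable def t1_4 (v : ℝ) : ℝ :=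
  2 * HurwitzZeta.evenKernel 0 (4 * v) - HurwitzZeta.evenKernel 0 v

theorem t1_2_sum {v : ℝ} (hv : 0 < v) :
    HasSum (fun x : ℤ => (od x : ℝ) * rexp (-π * (x : ℝ) ^ 2 * v / 4)) (t1_2 v) := by
  have h1 := t1_even 1 one_pos (by positivity : 0 < v / 4)
  have h2 := t1_even 2 two_pos (by positivity : 0 < v / 4)
  have e1 : (((1 : ℤ) : ℝ)) ^ 2 * (v / 4) = v / 4 := by
    push_cast
    ring
  have e2 : (((2 : ℤ) : ℝ)) ^ 2 * (v / 4) = v := by
    push_cast
    ring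
  rw [e1] at h1
  rw [e2] at h2
  refine (h1.sub h2).congr_fun fun x => ?_
  have e : -π * (x : ℝ) ^ 2 * (v / 4) = -π * (x : ℝ) ^ 2 * v / 4 := by ring
  rw [e, if_pos (Int.emod_one x)]
  unfold od
  have h : x % 2 = 0 ∨ x % 2 = 1 := by omega
  rcases h with h | h <;> simp [h]

theorem t1_4_sum {v : ℝ} (hv : 0 < v) :
    HasSum (fun d : ℤ => (et d : ℝ) * rexp (-π * (d : ℝ) ^ 2 * v / 4)) (t1_4 v) := by
  have h1 := (t1_even 4 (by norm_num) (by positivity : 0 < v / 4)).mul_left 2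
  have h2 := t1_even 2 two_pos (by positivity : 0 < v / 4)
  have e1 : (((4 : ℤ) : ℝ)) ^ 2 * (v / 4) = 4 * v := by
    push_cast
    ring
  have e2 : (((2 : ℤ) : ℝ)) ^ 2 * (v / 4) = v := by
    push_cast
    ring
  rw [e1] at h1
  rw [e2] at h2
  refine (h1.sub h2).congr_fun fun x => ?_
  have e : -π * (x : ℝ) ^ 2 * (v / 4) = -π * (x : ℝ) ^ 2 * v / 4 := by ring
  rw [e]
  unfold et
  have h : x % 4 = 0 ∨ x % 4 = 1 ∨ x % 4 = 2 ∨ x % 4 = 3 := by omega
  rcases h with h | h | h | h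
  · have h3 : x % 2 = 0 := by omega
    simp only [h, h3, if_true]
    push_cast
    ring
  · have h3 : x % 2 = 1 := by omega
    simp [h, h3]
  · have h3 : x % 2 = 0 := by omega
    simp [h, h3]
  · have h3 : x % 2 = 1 := by omega
    simp [h, h3]

theorem t1_4_inv {v : ℝ} (hv : 0 < v) : t1_4 (1 / v) = √v * t1_2 v := by
  unfold t1_4 t1_2
  have h1 := t1_even_inv (4 * (1 / v))
  have h2 := t1_even_inv (1 / v)
  have e1 : 1 / (4 * (1 / v)) = v / 4 := by field_simp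
  rw [e1] at h1
  rw [one_div_one_div] at h2
  rw [h1, h2]
  have h4 : √4 = 2 := by
    have h : (4 : ℝ) = 2 ^ 2 := by norm_num
    rw [h, Real.sqrt_sq (by norm_num)]
  have s1 : √(4 * (1 / v)) = 2 / √v := by
    rw [Real.sqrt_mul (by norm_num), h4, Real.sqrt_div (by norm_num), Real.sqrt_one]
    ring
  have s2 : √(1 / v) = 1 / √v := by
    rw [Real.sqrt_div (by norm_num), Real.sqrt_one]
  have hq : 0 < √v := Real.sqrt_pos.mpr hv
  rw [s1, s2]
  field_simp

theorem t1_2_inv {v : ℝ} (hv : 0 < v) : t1_2 (1 / v) = √v * t1_4 v := by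
  have h := t1_4_inv (v := 1 / v) (by positivity)
  rw [one_div_one_div] at h
  rw [h, ← mul_assoc, ← Real.sqrt_mul hv.le, mul_one_div_cancel hv.ne', Real.sqrt_one, one_mul]

/-! ### The theta series -/

/-- The theta series. -/
noncomputable def t1_f (t : ℝ) : ℝ := t1_g (t / 2) * t1_4 (2 * t) - 2 * (t1_2 (t / 2) * t1_g (2 * t))

theorem t1_f_sum {t : ℝ} (ht : 0 < t) : HasSum (fun p : ℤ × ℤ => ((ci p : ℤ) : ℝ) *
    rexp (-π * (((p.1 : ℝ) ^ 2 + 4 * (p.2 : ℝ) ^ 2) / 8) * t)) (t1_f t) := by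
  have g1 := t1_g_sum (by positivity : 0 < t / 2)
  have g2 := t1_g_sum (by positivity : 0 < 2 * t)
  have k2 := t1_2_sum (by positivity : 0 < t / 2)
  have k4 := t1_4_sum (by positivity : 0 < 2 * t)
  have h1 := g1.mul k4 (summable_mul_of_summable_norm g1.summable.norm k4.summable.norm)
  have h2 := (k2.mul g2 (summable_mul_of_summable_norm k2.summable.norm
    g2.summable.norm)).mul_left 2
  refine (h1.sub h2).congr_fun fun p => ?_
  have e : rexp (-π * (((p.1 : ℝ) ^ 2 + 4 * (p.2 : ℝ) ^ 2) / 8) * t) =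
      rexp (-π * (p.1 : ℝ) ^ 2 * (t / 2) / 4) * rexp (-π * (p.2 : ℝ) ^ 2 * (2 * t) / 4) := by
    rw [← Real.exp_add]
    congr 1
    ring
  rw [e, ci]
  push_cast
  ring

theorem t1_f_cont : ContinuousOn t1_f (Ioi 0) := by
  have ho (a : UnitAddCircle) : ContinuousOn (HurwitzZeta.oddKernel a) (Ioi 0) :=
    HurwitzZeta.continuousOn_oddKernel a
  have he : ContinuousOn (HurwitzZeta.evenKernel 0) (Ioi 0) := HurwitzZeta.continuousOn_evenKernel 0
  have hg : ContinuousOn t1_g (Ioi 0) := by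
    have h (a : UnitAddCircle) : ContinuousOn (fun t : ℝ => HurwitzZeta.oddKernel a (4 * t))
        (Ioi 0) := by
      refine (ho a).comp (by fun_prop) ?_
      intro t ht
      simp only [mem_Ioi] at ht ⊢
      positivity
    unfold t1_g
    exact (continuousOn_const.mul (h _)).sub (continuousOn_const.mul (h _))
  have h2 : ContinuousOn t1_2 (Ioi 0) := by
    have h : ContinuousOn (fun t : ℝ => HurwitzZeta.evenKernel 0 (t / 4)) (Ioi 0) := by
      refine he.comp (by fun_prop) ?_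
      intro t ht
      simp only [mem_Ioi] at ht ⊢
      positivity
    unfold t1_2
    exact h.sub he
  have h4 : ContinuousOn t1_4 (Ioi 0) := by
    have h : ContinuousOn (fun t : ℝ => HurwitzZeta.evenKernel 0 (4 * t)) (Ioi 0) := by
      refine he.comp (by fun_prop) ?_
      intro t ht
      simp only [mem_Ioi] at ht ⊢
      positivity
    unfold t1_4
    exact (continuousOn_const.mul h).sub he
  have hm1 : MapsTo (fun t : ℝ => t / 2) (Ioi 0) (Ioi 0) := by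
    intro t ht
    simp only [mem_Ioi] at ht ⊢
    positivity
  have hm2 : MapsTo (fun t : ℝ => 2 * t) (Ioi 0) (Ioi 0) := by
    intro t ht
    simp only [mem_Ioi] at ht ⊢
    positivity
  have c1 : ContinuousOn (fun t : ℝ => t / 2) (Ioi 0) := by fun_prop
  have c2 : ContinuousOn (fun t : ℝ => 2 * t) (Ioi 0) := by fun_prop
  unfold t1_f
  exact ((hg.comp c1 hm1).mul (h4.comp c2 hm2)).sub
    (continuousOn_const.mul ((h2.comp c1 hm1).mul (hg.comp c2 hm2)))

theorem t1_f_inv {t : ℝ} (ht : 0 < t) : t1_f (1 / t) = -(t ^ (2 : ℝ) * t1_f t) := by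
  have a1 : 1 / t / 2 = 1 / (2 * t) := by field_simp
  have a2 : 2 * (1 / t) = 1 / (t / 2) := by field_simp
  have g1 := t1_g_inv (by positivity : 0 < 2 * t)
  have g2 := t1_g_inv (by positivity : 0 < t / 2)
  have k4 := t1_4_inv (by positivity : 0 < t / 2)
  have k2 := t1_2_inv (by positivity : 0 < 2 * t)
  have s : √(2 * t) * √(t / 2) = t := by
    rw [← Real.sqrt_mul (by positivity)]
    have h : 2 * t * (t / 2) = t ^ 2 := by ring
    rw [h, Real.sqrt_sq ht.le]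
  have h2 : t ^ (2 : ℝ) = t ^ 2 := by
    rw [← Real.rpow_natCast]
    norm_num
  unfold t1_f
  rw [a1, a2, g1, g2, k4, k2, h2]
  linear_combination (2 * t * t1_g (2 * t) * t1_2 (t / 2) -
    t * t1_4 (2 * t) * t1_g (t / 2)) * s

private theorem t1_ci {p : ℤ × ℤ} (h : ci p ≠ 0) : (1 : ℝ) ≤ (p.1 : ℝ) ^ 2 + 4 * (p.2 : ℝ) ^ 2 := by
  have h1 : p.1 ≠ 0 := by
    intro h2
    apply h
    unfold ci od
    rw [h2]
    simp
  have h2 : 1 ≤ p.1 ^ 2 := by
    have h3 : (0 : ℤ) < p.1 ^ 2 := by positivity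
    omega
  have h3 : (1 : ℝ) ≤ (p.1 : ℝ) ^ 2 := by exact_mod_cast h2
  nlinarith [sq_nonneg (p.2 : ℝ)]

theorem t1_f_dec : t1_f =O[atTop] fun t => rexp (-(π / 8) * t) := by
  have h1 := (t1_f_sum one_pos).summable.abs
  refine IsBigO.of_bound ((∑' p : ℤ × ℤ, |((ci p : ℤ) : ℝ) *
    rexp (-π * (((p.1 : ℝ) ^ 2 + 4 * (p.2 : ℝ) ^ 2) / 8) * 1)|) * rexp (π / 8)) ?_
  filter_upwards [eventually_ge_atTop 1] with t ht
  have ht0 : 0 < t := by linarith
  have hs := t1_f_sum ht0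
  have hsa := hs.summable.abs
  have hle (p : ℤ × ℤ) : |((ci p : ℤ) : ℝ) *
      rexp (-π * (((p.1 : ℝ) ^ 2 + 4 * (p.2 : ℝ) ^ 2) / 8) * t)| ≤ |((ci p : ℤ) : ℝ) *
      rexp (-π * (((p.1 : ℝ) ^ 2 + 4 * (p.2 : ℝ) ^ 2) / 8) * 1)| * rexp (π / 8 - π / 8 * t) := by
    rcases eq_or_ne (ci p) 0 with hp | hp
    · rw [hp]
      simp
    · rw [abs_mul, abs_mul, Real.abs_exp, Real.abs_exp, mul_assoc |((ci p : ℤ) : ℝ)|,
        ← Real.exp_add]
      refine mul_le_mul_of_nonneg_left ?_ (abs_nonneg _)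
      refine Real.exp_le_exp.mpr ?_
      have h9 := mul_nonneg (mul_nonneg Real.pi_pos.le (by linarith : (0 : ℝ) ≤ t - 1))
        (by linarith [t1_ci hp] : (0 : ℝ) ≤ ((p.1 : ℝ) ^ 2 + 4 * (p.2 : ℝ) ^ 2) - 1)
      linarith
  have h2 : |t1_f t| ≤ ∑' p : ℤ × ℤ, |((ci p : ℤ) : ℝ) *
      rexp (-π * (((p.1 : ℝ) ^ 2 + 4 * (p.2 : ℝ) ^ 2) / 8) * t)| := by
    rw [← hs.tsum_eq]
    have h := norm_tsum_le_tsum_norm (f := fun p : ℤ × ℤ => ((ci p : ℤ) : ℝ) *
      rexp (-π * (((p.1 : ℝ) ^ 2 + 4 * (p.2 : ℝ) ^ 2) / 8) * t)) hsa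
    simpa only [Real.norm_eq_abs] using h
  have h3 := hsa.tsum_le_tsum hle (h1.mul_right _)
  rw [tsum_mul_right] at h3
  have e : rexp (π / 8 - π / 8 * t) = rexp (π / 8) * rexp (-(π / 8) * t) := by
    rw [← Real.exp_add]
    congr 1
    ring
  rw [e] at h3
  rw [Real.norm_eq_abs, Real.norm_eq_abs, Real.abs_exp, mul_assoc]
  exact h2.trans h3

/-- The theta series and its functional equation. -/
theorem t1 : ∃ f : ℝ → ℝ,
    (∀ t : ℝ, 0 < t → HasSum (fun p : ℤ × ℤ => ((ci p : ℤ) : ℝ) *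
      rexp (-π * (((p.1 : ℝ) ^ 2 + 4 * (p.2 : ℝ) ^ 2) / 8) * t)) (f t)) ∧
    ContinuousOn f (Ioi 0) ∧ (∀ t : ℝ, 0 < t → f (1 / t) = -(t ^ (2 : ℝ) * f t)) ∧
    ∃ c : ℝ, 0 < c ∧ f =O[atTop] fun t => rexp (-c * t) :=
  ⟨t1_f, fun _ ht => t1_f_sum ht, t1_f_cont, fun _ ht => t1_f_inv ht, π / 8, by positivity,
    t1_f_dec⟩

end Pool.Agent.Lib.MP_1a91b9_ntQH.R4
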