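import Pool.Agent.Lib.MP_1a91b9_ntQH.R4.Defs

/-!
# MP_1a91b9_nt (abelian extensions of exponent four): the sign of the theta series
-/

set_option autoImplicit false

namespace Pool.Agent.Lib.MP_1a91b9_ntQH.R4

open Real Set Filter Asymptotics

section T2aux

open HurwitzZeta Topology

/-- The odd theta function. -/
private noncomputable def T2_gE (u : ℝ) : ℝ := 8 * oddKernel ((1 / 4 : ℝ) : UnitAddCircle) (4 * u)

/-- The even theta function with the characteristic `1/2`. -/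
private noncomputable def T2_tE (v : ℝ) : ℝ := evenKernel ((1 / 2 : ℝ) : UnitAddCircle) v

/-- The alternating theta function. -/
private noncomputable def T2_tC (v : ℝ) : ℝ := cosKernel ((1 / 2 : ℝ) : UnitAddCircle) v

/-! ## Alternating series -/

/-- Bounds for an alternating series, summed in T2_pairs. -/
private theorem T2_alt_bounds {d : ℕ → ℝ} {S : ℝ}
    (hS : Tendsto (fun M : ℕ => ∑ m ∈ Finset.range M, (d (2 * m) - d (2 * m + 1))) atTop (𝓝 S))
    (hd : ∀ n, 1 ≤ n → d (n + 1) ≤ d n) (hd0 : ∀ n, 0 ≤ d n) : d 0 - d 1 ≤ S ∧ S ≤ d 0 - d 1 + d 2 := by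
  have h1 : ∀ M : ℕ, d 0 - d 1 ≤ ∑ m ∈ Finset.range (M + 1), (d (2 * m) - d (2 * m + 1)) := by
    intro M
    induction M with
    | zero => simp
    | succ M ih =>
      rw [Finset.sum_range_succ]
      have h2 := hd (2 * (M + 1)) (by omega)
      linarith
  have h2 : ∀ M : ℕ, ∑ m ∈ Finset.range (M + 1), (d (2 * m) - d (2 * m + 1)) ≤ d 0 - d 1 + d 2 - d (2 * M + 2) := by
    intro M
    induction M with
    | zero => simp
    | succ M ih =>
      rw [Finset.sum_range_succ]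
      have h3 := hd (2 * (M + 1) + 1) (by omega)
      have e1 : 2 * (M + 1) = 2 * M + 2 := by ring
      have e2 : 2 * (M + 1) + 1 + 1 = 2 * (M + 1) + 2 := by ring
      rw [e2] at h3
      rw [← e1] at ih
      linarith
  have hS' := (tendsto_add_atTop_iff_nat 1).2 hS
  refine ⟨ge_of_tendsto' hS' h1, le_of_tendsto' hS' fun M => ?_⟩
  have := h2 M
  have := hd0 (2 * M + 2)
  linarith

/-- From a series over `ℕ` to the sums of T2_pairs. -/
private theorem T2_pairs {d : ℕ → ℝ} {S : ℝ} (h : HasSum (fun n : ℕ => (-1) ^ n * d n) S) :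
    Tendsto (fun M : ℕ => ∑ m ∈ Finset.range M, (d (2 * m) - d (2 * m + 1))) atTop (𝓝 S) := by
  have h1 : (fun M : ℕ => ∑ m ∈ Finset.range M, (d (2 * m) - d (2 * m + 1))) =
      (fun k : ℕ => ∑ n ∈ Finset.range k, (-1 : ℝ) ^ n * d n) ∘ fun M : ℕ => 2 * M := by
    funext M
    simp only [Function.comp]
    induction M with
    | zero => simp
    | succ M ih =>
      have e : 2 * (M + 1) = 2 * M + 1 + 1 := by ring
      rw [Finset.sum_range_succ, ih, e, Finset.sum_range_succ, Finset.sum_range_succ, pow_succ, pow_mul]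
      ring
  rw [h1]
  refine h.tendsto_sum_nat.comp ?_
  refine tendsto_atTop_mono (fun k => ?_) tendsto_id
  simp only [id]
  omega

/-- Comparison of two differences of exponentials. -/
private theorem T2_exp_cmp {u v c c' w w' : ℝ} (huv : u < v) (hc : 0 < c) (hcc : c ≤ c') (hw' : 0 ≤ w')
    (h : w' * c' * rexp (-(c' - c) * u) < w * c) :
    w' * (rexp (-c' * u) - rexp (-c' * v)) < w * (rexp (-c * u) - rexp (-c * v)) := by
  have hs : 0 < v - u := sub_pos.2 huv
  have hc' : 0 < c' := hc.trans_le hcc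
  have e1 : rexp (-c' * v) = rexp (-c' * u) * rexp (-c' * (v - u)) := by
    rw [← Real.exp_add]
    congr 1
    ring
  have e2 : rexp (-c * v) = rexp (-c * u) * rexp (-c * (v - u)) := by
    rw [← Real.exp_add]
    congr 1
    ring
  have e3 : rexp (-c' * u) = rexp (-c * u) * rexp (-(c' - c) * u) := by
    rw [← Real.exp_add]
    congr 1
    ring
  have hpos : 0 < 1 - rexp (-c * (v - u)) := by
    have : rexp (-c * (v - u)) < 1 := by
      rw [← Real.exp_zero]
      exact Real.exp_lt_exp.2 (by nlinarith [mul_pos hc hs])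
    linarith
  -- Bernoulli
  have hb : c * (1 - rexp (-c' * (v - u))) ≤ c' * (1 - rexp (-c * (v - u))) := by
    have h1 := one_add_mul_self_le_rpow_one_add (s := rexp (-c * (v - u)) - 1) (p := c' / c) (by
      have := Real.exp_pos (-c * (v - u))
      linarith) ((one_le_div hc).2 hcc)
    have e4 : (1 + (rexp (-c * (v - u)) - 1)) ^ (c' / c) = rexp (-c' * (v - u)) := by
      rw [add_sub_cancel, ← Real.exp_mul]
      congr 1
      field_simp
    rw [e4] at h1
    have h2 := mul_le_mul_of_nonneg_left h1 hc.le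
    have e5 : c * (1 + c' / c * (rexp (-c * (v - u)) - 1)) = c + c' * (rexp (-c * (v - u)) - 1) := by
      field_simp
    rw [e5] at h2
    linarith
  have hE := Real.exp_pos (-c * u)
  have hF := Real.exp_pos (-(c' - c) * u)
  rw [e1, e2, e3]
  have h3 : w' * rexp (-(c' - c) * u) * (c * (1 - rexp (-c' * (v - u)))) ≤
      w' * rexp (-(c' - c) * u) * (c' * (1 - rexp (-c * (v - u)))) :=
    mul_le_mul_of_nonneg_left hb (mul_nonneg hw' hF.le)
  have h4 : w' * c' * rexp (-(c' - c) * u) * (1 - rexp (-c * (v - u))) <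
      w * c * (1 - rexp (-c * (v - u))) := mul_lt_mul_of_pos_right h hpos
  have h5 : c * (w' * rexp (-(c' - c) * u) * (1 - rexp (-c' * (v - u)))) <
      c * (w * (1 - rexp (-c * (v - u)))) := by linarith
  have h6 := lt_of_mul_lt_mul_left h5 hc.le
  have h7 := mul_lt_mul_of_pos_left h6 hE
  linarith

/-! ## The series -/

/-- the term of the odd theta function -/
private noncomputable def T2_dg (u : ℝ) (n : ℕ) : ℝ := 2 * (2 * n + 1) * rexp (-(π * (2 * n + 1) ^ 2 / 4) * u)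

private theorem T2_gE_series {u : ℝ} (hu : 0 < u) :
    Tendsto (fun M : ℕ => ∑ m ∈ Finset.range M, (T2_dg u (2 * m) - T2_dg u (2 * m + 1))) atTop (𝓝 (T2_gE u)) := by
  have h := ((hasSum_int_oddKernel (1 / 4) (by positivity : 0 < 4 * u)).mul_left 8).nat_add_neg_add_one
  refine h.tendsto_sum_nat.congr fun M => Finset.sum_congr rfl fun m _ => ?_
  unfold T2_dg
  push_cast
  have e1 : -π * ((m : ℝ) + 1 / 4) ^ 2 * (4 * u) = -(π * (2 * (2 * (m : ℝ)) + 1) ^ 2 / 4) * u := by ring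
  have e2 : -π * (-((m : ℝ) + 1) + 1 / 4) ^ 2 * (4 * u) = -(π * (2 * (2 * (m : ℝ) + 1) + 1) ^ 2 / 4) * u := by ring
  rw [e1, e2]
  ring

private theorem T2_tE_series {v : ℝ} (hv : 0 < v) :
    HasSum (fun n : ℤ => rexp (-(π * ((n : ℝ) + 1 / 2) ^ 2) * v)) (T2_tE v) := by
  refine (hasSum_int_evenKernel (1 / 2) hv).congr_fun fun n => ?_
  congr 1
  ring

/-- the term of the alternating theta function -/
private noncomputable def T2_dc (v : ℝ) (n : ℕ) : ℝ := 2 * rexp (-(π * n ^ 2) * v)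

private theorem T2_tC_series {v : ℝ} (hv : 0 < v) : HasSum (fun n : ℕ => (-1) ^ n * T2_dc v n) (T2_tC v + 1) := by
  have h := hasSum_int_cosKernel (1 / 2) hv
  have h0 : ∀ n : ℤ, Complex.exp (2 * π * Complex.I * ((1 / 2 : ℝ) : ℂ) * n) * ((rexp (-π * (n : ℝ) ^ 2 * v) : ℝ) : ℂ) =
      (((-1 : ℝ) ^ n.natAbs * rexp (-(π * (n : ℝ) ^ 2) * v) : ℝ) : ℂ) := by
    intro n
    have e1 : Complex.exp (2 * π * Complex.I * ((1 / 2 : ℝ) : ℂ) * n) = (-1 : ℂ) ^ n.natAbs := by
      have e2 : 2 * (π : ℂ) * Complex.I * ((1 / 2 : ℝ) : ℂ) * n = n * (π * Complex.I) := by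
        push_cast
        ring
      rw [e2, Complex.exp_int_mul, Complex.exp_pi_mul_I]
      rcases Int.natAbs_eq n with h1 | h1
      · conv_lhs => rw [h1]
        rw [zpow_natCast]
      · conv_lhs => rw [h1]
        rw [zpow_neg, zpow_natCast, ← inv_pow, inv_neg, inv_one]
    rw [e1]
    push_cast
    congr 3
    ring
  have h1 : HasSum (fun n : ℤ => (-1 : ℝ) ^ n.natAbs * rexp (-(π * (n : ℝ) ^ 2) * v)) (T2_tC v) := by
    rw [← Complex.hasSum_ofReal]
    exact h.congr_fun fun n => (h0 n).symm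
  have h2 := h1.nat_add_neg
  have e3 : (-1 : ℝ) ^ (0 : ℤ).natAbs * rexp (-(π * ((0 : ℤ) : ℝ) ^ 2) * v) = 1 := by simp
  rw [e3] at h2
  refine h2.congr_fun fun n => ?_
  unfold T2_dc
  rw [Int.natAbs_neg, Int.natAbs_natCast]
  push_cast
  rw [neg_sq]
  ring

/-! ## Positivity and monotonicity -/

private theorem T2_exp_big {x : ℝ} (hx : 6 ≤ x) : 25 ≤ rexp x := by
  have h := Real.quadratic_le_exp_of_nonneg (by linarith : 0 ≤ x)
  nlinarith

private theorem T2_exp_neg_mul {x : ℝ} (y : ℝ) : rexp (-x) * (rexp x * y) = y := by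
  rw [← mul_assoc, ← Real.exp_add, neg_add_cancel, Real.exp_zero, one_mul]

private theorem T2_gE_pos {u : ℝ} (hu : 1 / 2 ≤ u) : 0 < T2_gE u := by
  have hu0 : 0 < u := by linarith
  have hp := Real.pi_gt_three
  have hd : ∀ n : ℕ, T2_dg u (n + 1) < T2_dg u n := by
    intro n
    have hn : (0 : ℝ) ≤ n := Nat.cast_nonneg n
    unfold T2_dg
    have e1 : rexp (-(π * (2 * (n : ℝ) + 1) ^ 2 / 4) * u) =
        rexp (-(π * (2 * ((n : ℝ) + 1) + 1) ^ 2 / 4) * u) * rexp (2 * π * (n + 1) * u) := by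
      rw [← Real.exp_add]
      congr 1
      ring
    push_cast
    rw [e1]
    have h1 := Real.add_one_le_exp (2 * π * (n + 1) * u)
    have h2 : 3 * ((n : ℝ) + 1) ≤ 2 * π * (n + 1) * u := by
      have h3 : 3 * ((n : ℝ) + 1) ≤ π * ((n : ℝ) + 1) := by nlinarith
      have h4 : 0 ≤ π * ((n : ℝ) + 1) := by nlinarith
      nlinarith
    have h5 : 2 * ((n : ℝ) + 1) + 1 < (2 * n + 1) * rexp (2 * π * (n + 1) * u) := by
      have h6 : 3 * (n : ℝ) + 4 ≤ rexp (2 * π * (n + 1) * u) := by linarith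
      nlinarith
    have h7 := mul_lt_mul_of_pos_right h5 (Real.exp_pos (-(π * (2 * ((n : ℝ) + 1) + 1) ^ 2 / 4) * u))
    nlinarith
  have h := (T2_alt_bounds (T2_gE_series hu0) (fun n _ => (hd n).le) (fun n => by unfold T2_dg; positivity)).1
  have := hd 0
  linarith

private theorem T2_tE_pos {v : ℝ} (hv : 0 < v) : 0 < T2_tE v := by
  have h := le_hasSum (T2_tE_series hv) 0 fun n _ => (Real.exp_pos _).le
  exact lt_of_lt_of_le (Real.exp_pos _) h

private theorem T2_tC_pos {v : ℝ} (hv : 2 ≤ v) : 0 < T2_tC v := by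
  have hv0 : 0 < v := by linarith
  have hp := Real.pi_gt_three
  have h := (T2_alt_bounds (T2_pairs (T2_tC_series hv0)) (fun n _ => ?_) (fun n => by unfold T2_dc; positivity)).1
  · have e0 : T2_dc v 0 = 2 := by simp [T2_dc]
    have e1 : T2_dc v 1 = 2 * rexp (-(π * v)) := by
      unfold T2_dc
      congr 2
      push_cast
      ring
    rw [e0, e1] at h
    have h1 := T2_exp_big (x := π * v) (by nlinarith)
    have h2 : rexp (-(π * v)) * rexp (π * v) = 1 := by rw [← Real.exp_add, neg_add_cancel, Real.exp_zero]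
    have h3 := Real.exp_pos (-(π * v))
    nlinarith
  · unfold T2_dc
    refine mul_le_mul_of_nonneg_left (Real.exp_le_exp.2 ?_) two_pos.le
    push_cast
    have hn : (0 : ℝ) ≤ n := Nat.cast_nonneg n
    have : 0 ≤ π * v := by positivity
    nlinarith

private theorem T2_gE_mono {u v : ℝ} (hu : 1 / 2 ≤ u) (huv : u < v) : rexp (π * u / 4) * T2_gE u < rexp (π * v / 4) * T2_gE v := by
  have hu0 : 0 < u := by linarith
  have hv0 : 0 < v := by linarith
  have hp := Real.pi_gt_three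
  obtain ⟨d, hd⟩ : ∃ d : ℕ → ℝ, d = fun n : ℕ => 2 * (2 * (n : ℝ) + 1) *
      (rexp (-(π * n * (n + 1)) * u) - rexp (-(π * n * (n + 1)) * v)) := ⟨_, rfl⟩
  have hE : ∀ (w : ℝ) (n : ℕ), rexp (π * w / 4) * T2_dg w n = 2 * (2 * (n : ℝ) + 1) * rexp (-(π * n * (n + 1)) * w) := by
    intro w n
    unfold T2_dg
    have e1 : rexp (-(π * n * (n + 1)) * w) = rexp (π * w / 4) * rexp (-(π * (2 * (n : ℝ) + 1) ^ 2 / 4) * w) := by
      rw [← Real.exp_add]
      congr 1
      ring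
    rw [e1]
    ring
  have h1 : Tendsto (fun M : ℕ => ∑ m ∈ Finset.range M, (d (2 * m) - d (2 * m + 1))) atTop
      (𝓝 (rexp (π * u / 4) * T2_gE u - rexp (π * v / 4) * T2_gE v)) := by
    refine (((T2_gE_series hu0).const_mul (rexp (π * u / 4))).sub
      ((T2_gE_series hv0).const_mul (rexp (π * v / 4)))).congr fun M => ?_
    rw [Finset.mul_sum, Finset.mul_sum, ← Finset.sum_sub_distrib]
    refine Finset.sum_congr rfl fun m _ => ?_
    rw [mul_sub, mul_sub, hE, hE, hE, hE, hd]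
    ring
  have hlt : ∀ n : ℕ, 1 ≤ n → d (n + 1) < d n := by
    intro n hn
    have hn1 : (1 : ℝ) ≤ n := by exact_mod_cast hn
    rw [hd]
    simp only
    push_cast
    have e1 : 2 * (2 * (n : ℝ) + 1) * (rexp (-(π * n * (n + 1)) * u) - rexp (-(π * n * (n + 1)) * v)) =
      (2 * (2 * (n : ℝ) + 1)) * (rexp (-(π * n * (n + 1)) * u) - rexp (-(π * n * (n + 1)) * v)) := rfl
    refine T2_exp_cmp huv (by positivity) ?_ (by positivity) ?_
    · nlinarith
    · have e2 : -(π * ((n : ℝ) + 1) * (n + 1 + 1) - π * n * (n + 1)) * u = -(2 * π * (n + 1) * u) := by ring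
      rw [e2]
      have h2 := T2_exp_big (x := 2 * π * (n + 1) * u) (by
        have h3 : 6 ≤ π * ((n : ℝ) + 1) := by nlinarith
        nlinarith)
      have h3 : rexp (-(2 * π * (n + 1) * u)) * rexp (2 * π * (n + 1) * u) = 1 := by
        rw [← Real.exp_add, neg_add_cancel, Real.exp_zero]
      have h4 := Real.exp_pos (-(2 * π * ((n : ℝ) + 1) * u))
      have h5 : rexp (-(2 * π * (n + 1) * u)) ≤ 1 / 25 := by nlinarith
      have h6 : 0 < π * ((n : ℝ) + 1) := by positivity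
      have h7 : (2 * ((n : ℝ) + 1) + 1) * (n + 1 + 1) * (1 / 25) < (2 * n + 1) * n := by nlinarith
      have h8 : (2 * ((n : ℝ) + 1) + 1) * (n + 1 + 1) * rexp (-(2 * π * (n + 1) * u)) < (2 * n + 1) * n :=
        lt_of_le_of_lt (mul_le_mul_of_nonneg_left h5 (by positivity)) h7
      have h9 := mul_lt_mul_of_pos_left h8 h6
      linarith
  have hd0 : ∀ n, 0 ≤ d n := by
    intro n
    rw [hd]
    have h2 : rexp (-(π * (n : ℝ) * (n + 1)) * v) ≤ rexp (-(π * (n : ℝ) * (n + 1)) * u) := by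
      refine Real.exp_le_exp.2 ?_
      have : 0 ≤ π * (n : ℝ) * (n + 1) := by positivity
      nlinarith
    have h3 : (0 : ℝ) ≤ 2 * (2 * (n : ℝ) + 1) := by positivity
    exact mul_nonneg h3 (sub_nonneg.2 h2)
  have h2 := (T2_alt_bounds h1 (fun n hn => (hlt n hn).le) hd0).2
  have h3 : d 0 = 0 := by
    rw [hd]
    simp
  have h4 := hlt 1 le_rfl
  linarith

private theorem T2_tE_mono {u v : ℝ} (hu : 0 < u) (huv : u ≤ v) : rexp (π * v / 4) * T2_tE v ≤ rexp (π * u / 4) * T2_tE u := by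
  have h1 := (T2_tE_series hu).mul_left (rexp (π * u / 4))
  have h2 := (T2_tE_series (hu.trans_le huv)).mul_left (rexp (π * v / 4))
  refine hasSum_le (fun n => ?_) h2 h1
  rw [← Real.exp_add, ← Real.exp_add]
  refine Real.exp_le_exp.2 ?_
  have e1 : ∀ w : ℝ, π * w / 4 + -(π * ((n : ℝ) + 1 / 2) ^ 2) * w = -(π * (n * (n + 1)) * w) := fun w => by ring
  rw [e1, e1]
  have h3 : (0 : ℝ) ≤ n * (n + 1) := by
    have h4 : (0 : ℤ) ≤ n * (n + 1) := by
      rcases le_or_gt 0 n with h | h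
      · positivity
      · nlinarith
    exact_mod_cast h4
  have h5 : 0 ≤ π * ((n : ℝ) * (n + 1)) := mul_nonneg Real.pi_pos.le h3
  nlinarith

private theorem T2_gE_anti {u v : ℝ} (hu : 2 ≤ u) (huv : u < v) : T2_gE v < T2_gE u := by
  have hu0 : 0 < u := by linarith
  have hv0 : 0 < v := by linarith
  have hp := Real.pi_gt_three
  obtain ⟨d, hd⟩ : ∃ d : ℕ → ℝ, d = fun n : ℕ => T2_dg u n - T2_dg v n := ⟨_, rfl⟩
  have h1 : Tendsto (fun M : ℕ => ∑ m ∈ Finset.range M, (d (2 * m) - d (2 * m + 1))) atTop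
      (𝓝 (T2_gE u - T2_gE v)) := by
    refine ((T2_gE_series hu0).sub (T2_gE_series hv0)).congr fun M => ?_
    rw [← Finset.sum_sub_distrib]
    refine Finset.sum_congr rfl fun m _ => ?_
    rw [hd]
    ring
  have hd' : ∀ n : ℕ, d n = 2 * (2 * n + 1) * (rexp (-(π * (2 * n + 1) ^ 2 / 4) * u) -
      rexp (-(π * (2 * n + 1) ^ 2 / 4) * v)) := by
    intro n
    rw [hd]
    unfold T2_dg
    ring
  have hlt : ∀ n : ℕ, d (n + 1) < d n := by
    intro n
    have hn0 : (0 : ℝ) ≤ n := Nat.cast_nonneg n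
    rw [hd', hd']
    push_cast
    refine T2_exp_cmp huv (by positivity) ?_ (by positivity) ?_
    · nlinarith
    · have e2 : -(π * (2 * ((n : ℝ) + 1) + 1) ^ 2 / 4 - π * (2 * n + 1) ^ 2 / 4) * u = -(2 * π * (n + 1) * u) := by ring
      rw [e2]
      have h2 : 28 ≤ rexp (2 * π * (n + 1) * u) := by
        have h3 : 12 ≤ 2 * π * ((n : ℝ) + 1) * u := by
          have h4 : 3 ≤ π * ((n : ℝ) + 1) := by nlinarith
          nlinarith
        have h4 := Real.quadratic_le_exp_of_nonneg (by linarith : 0 ≤ 2 * π * ((n : ℝ) + 1) * u)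
        nlinarith
      have h3 : rexp (-(2 * π * (n + 1) * u)) * rexp (2 * π * (n + 1) * u) = 1 := by
        rw [← Real.exp_add, neg_add_cancel, Real.exp_zero]
      have h4 := Real.exp_pos (-(2 * π * ((n : ℝ) + 1) * u))
      have h5 : rexp (-(2 * π * (n + 1) * u)) ≤ 1 / 28 := by nlinarith
      have h7 : (2 * ((n : ℝ) + 1) + 1) ^ 3 * (1 / 28) < (2 * n + 1) ^ 3 := by
        have h8 : (2 * ((n : ℝ) + 1) + 1) ^ 3 ≤ (3 * (2 * n + 1)) ^ 3 :=
          pow_le_pow_left₀ (by positivity) (by linarith) 3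
        have h9 : (0 : ℝ) < (2 * n + 1) ^ 3 := by positivity
        have e3 : (3 * (2 * (n : ℝ) + 1)) ^ 3 = 27 * (2 * n + 1) ^ 3 := by ring
        rw [e3] at h8
        linarith
      have h8 : (2 * ((n : ℝ) + 1) + 1) ^ 3 * rexp (-(2 * π * (n + 1) * u)) < (2 * n + 1) ^ 3 :=
        lt_of_le_of_lt (mul_le_mul_of_nonneg_left h5 (by positivity)) h7
      have h9 := mul_lt_mul_of_pos_left h8 (by positivity : 0 < π / 2)
      linarith
  have hd0 : ∀ n, 0 ≤ d n := by
    intro n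
    rw [hd']
    have h2 : rexp (-(π * (2 * (n : ℝ) + 1) ^ 2 / 4) * v) ≤ rexp (-(π * (2 * (n : ℝ) + 1) ^ 2 / 4) * u) := by
      refine Real.exp_le_exp.2 ?_
      have : 0 ≤ π * (2 * (n : ℝ) + 1) ^ 2 / 4 := by positivity
      nlinarith
    have h3 : (0 : ℝ) ≤ 2 * (2 * (n : ℝ) + 1) := by positivity
    exact mul_nonneg h3 (sub_nonneg.2 h2)
  have h2 := (T2_alt_bounds h1 (fun n _ => (hlt n).le) hd0).1
  have h4 := hlt 0
  linarith

private theorem T2_tC_mono {u v : ℝ} (hu : 2 ≤ u) (huv : u < v) : T2_tC u < T2_tC v := by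
  have hu0 : 0 < u := by linarith
  have hv0 : 0 < v := by linarith
  have hp := Real.pi_gt_three
  obtain ⟨d, hd⟩ : ∃ d : ℕ → ℝ, d = fun n : ℕ => T2_dc u n - T2_dc v n := ⟨_, rfl⟩
  have h1 : HasSum (fun n : ℕ => (-1) ^ n * d n) (T2_tC u + 1 - (T2_tC v + 1)) := by
    refine ((T2_tC_series hu0).sub (T2_tC_series hv0)).congr_fun fun n => ?_
    rw [hd]
    ring
  have hd' : ∀ n : ℕ, d n = 2 * (rexp (-(π * n ^ 2) * u) - rexp (-(π * n ^ 2) * v)) := by
    intro n
    rw [hd]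
    unfold T2_dc
    ring
  have hlt : ∀ n : ℕ, 1 ≤ n → d (n + 1) < d n := by
    intro n hn
    have hn1 : (1 : ℝ) ≤ n := by exact_mod_cast hn
    rw [hd', hd']
    push_cast
    refine T2_exp_cmp huv (by positivity) ?_ (by positivity) ?_
    · nlinarith
    · have e2 : -(π * ((n : ℝ) + 1) ^ 2 - π * n ^ 2) * u = -(π * (2 * n + 1) * u) := by ring
      rw [e2]
      have h2 := T2_exp_big (x := π * (2 * n + 1) * u) (by
        have h3 : 3 ≤ π * (2 * (n : ℝ) + 1) := by nlinarith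
        nlinarith)
      have h3 : rexp (-(π * (2 * n + 1) * u)) * rexp (π * (2 * n + 1) * u) = 1 := by
        rw [← Real.exp_add, neg_add_cancel, Real.exp_zero]
      have h4 := Real.exp_pos (-(π * (2 * (n : ℝ) + 1) * u))
      have h5 : rexp (-(π * (2 * n + 1) * u)) ≤ 1 / 25 := by nlinarith
      have h7 : ((n : ℝ) + 1) ^ 2 * (1 / 25) < n ^ 2 := by nlinarith
      have h8 : ((n : ℝ) + 1) ^ 2 * rexp (-(π * (2 * n + 1) * u)) < n ^ 2 :=
        lt_of_le_of_lt (mul_le_mul_of_nonneg_left h5 (by positivity)) h7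
      have h9 := mul_lt_mul_of_pos_left h8 (by positivity : 0 < 2 * π)
      linarith
  have hd0 : ∀ n, 0 ≤ d n := by
    intro n
    rw [hd']
    have h2 : rexp (-(π * (n : ℝ) ^ 2) * v) ≤ rexp (-(π * (n : ℝ) ^ 2) * u) := by
      refine Real.exp_le_exp.2 ?_
      have : 0 ≤ π * (n : ℝ) ^ 2 := by positivity
      nlinarith
    exact mul_nonneg two_pos.le (sub_nonneg.2 h2)
  have h2 := (T2_alt_bounds (T2_pairs h1) (fun n hn => (hlt n hn).le) hd0).2
  have h3 : d 0 = 0 := by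
    rw [hd']
    simp
  have h4 := hlt 1 le_rfl
  linarith

/-- **The positivity.** -/
private theorem T2_f_pos (h1 : T2_gE (1 / 2) * T2_tC 2 = 2 * T2_gE 2 * T2_tE (1 / 2)) {t : ℝ} (ht : 1 < t) :
    0 < T2_gE (t / 2) * T2_tC (2 * t) - 2 * T2_gE (2 * t) * T2_tE (t / 2) := by
  have a1 := T2_gE_mono (u := 1 / 2) (v := t / 2) le_rfl (by linarith)
  have a2 := T2_tE_mono (u := 1 / 2) (v := t / 2) (by norm_num) (by linarith)
  have a3 := T2_gE_anti (u := 2) (v := 2 * t) le_rfl (by linarith)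
  have a4 := T2_tC_mono (u := 2) (v := 2 * t) le_rfl (by linarith)
  have b1 := T2_gE_pos (u := 1 / 2) le_rfl
  have b2 := T2_gE_pos (u := 2 * t) (by linarith)
  have b3 := T2_tC_pos (v := 2) le_rfl
  have b4 := T2_tE_pos (v := t / 2) (by linarith)
  have e0 := Real.exp_pos (π * (1 / 2) / 4)
  have e1 := Real.exp_pos (π * (t / 2) / 4)
  have c1 : rexp (π * (1 / 2) / 4) * T2_gE (1 / 2) * T2_tC 2 < rexp (π * (t / 2) / 4) * T2_gE (t / 2) * T2_tC (2 * t) :=
    mul_lt_mul'' a1 a4 (mul_pos e0 b1).le b3.le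
  have c2 : T2_gE (2 * t) * (rexp (π * (t / 2) / 4) * T2_tE (t / 2)) ≤ T2_gE 2 * (rexp (π * (1 / 2) / 4) * T2_tE (1 / 2)) :=
    mul_le_mul a3.le a2 (mul_pos e1 b4).le (b2.trans a3).le
  have c3 : 0 < rexp (π * (t / 2) / 4) * (T2_gE (t / 2) * T2_tC (2 * t) - 2 * T2_gE (2 * t) * T2_tE (t / 2)) := by
    have c4 : rexp (π * (1 / 2) / 4) * (T2_gE (1 / 2) * T2_tC 2) = rexp (π * (1 / 2) / 4) * (2 * T2_gE 2 * T2_tE (1 / 2)) := by
      rw [h1]
    linarith
  exact (mul_pos_iff_of_pos_left e1).1 c3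

/-! ## The double series -/

private theorem T2_tC_int {v : ℝ} (hv : 0 < v) :
    HasSum (fun n : ℤ => (-1 : ℝ) ^ n.natAbs * rexp (-(π * (n : ℝ) ^ 2) * v)) (T2_tC v) := by
  have h := hasSum_int_cosKernel (1 / 2) hv
  have h0 : ∀ n : ℤ, Complex.exp (2 * π * Complex.I * ((1 / 2 : ℝ) : ℂ) * n) * ((rexp (-π * (n : ℝ) ^ 2 * v) : ℝ) : ℂ) =
      (((-1 : ℝ) ^ n.natAbs * rexp (-(π * (n : ℝ) ^ 2) * v) : ℝ) : ℂ) := by
    intro n
    have e1 : Complex.exp (2 * π * Complex.I * ((1 / 2 : ℝ) : ℂ) * n) = (-1 : ℂ) ^ n.natAbs := by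
      have e2 : 2 * (π : ℂ) * Complex.I * ((1 / 2 : ℝ) : ℂ) * n = n * (π * Complex.I) := by
        push_cast
        ring
      rw [e2, Complex.exp_int_mul, Complex.exp_pi_mul_I]
      rcases Int.natAbs_eq n with h1 | h1
      · conv_lhs => rw [h1]
        rw [zpow_natCast]
      · conv_lhs => rw [h1]
        rw [zpow_neg, zpow_natCast, ← inv_pow, inv_neg, inv_one]
    rw [e1]
    push_cast
    congr 3
    ring
  rw [← Complex.hasSum_ofReal]
  exact h.congr_fun fun n => (h0 n).symm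

private theorem T2_ch {u : ℝ} (hu : 0 < u) :
    HasSum (fun x : ℤ => ((ch x : ℤ) : ℝ) * (x : ℝ) * rexp (-(π * (x : ℝ) ^ 2 / 4) * u)) (T2_gE u) := by
  have h := (hasSum_int_oddKernel (1 / 4) (by positivity : 0 < 4 * u)).mul_left 4
  have hinj : Function.Injective (fun n : ℤ => 4 * n + 1) := by
    intro a b hab
    simp only at hab
    omega
  have h1 : HasSum (fun x : ℤ => if x % 4 = 1 then (x : ℝ) * rexp (-(π * (x : ℝ) ^ 2 / 4) * u) else 0)
      (4 * oddKernel ((1 / 4 : ℝ) : UnitAddCircle) (4 * u)) := by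
    have e : (fun n : ℤ => 4 * (((n : ℝ) + 1 / 4) * rexp (-π * ((n : ℝ) + 1 / 4) ^ 2 * (4 * u)))) =
        (fun x : ℤ => if x % 4 = 1 then (x : ℝ) * rexp (-(π * (x : ℝ) ^ 2 / 4) * u) else 0) ∘
          (fun n : ℤ => 4 * n + 1) := by
      funext n
      simp only [Function.comp]
      rw [if_pos (by omega)]
      push_cast
      have e1 : -π * ((n : ℝ) + 1 / 4) ^ 2 * (4 * u) = -(π * (4 * (n : ℝ) + 1) ^ 2 / 4) * u := by ring
      rw [e1]
      ring
    rw [e] at h
    rw [← Function.Injective.hasSum_iff hinj]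
    · exact h
    · intro x hx
      rw [if_neg]
      intro h4
      apply hx
      refine ⟨x / 4, ?_⟩
      simp only
      omega
  have h2 := (Equiv.neg ℤ).hasSum_iff.2 h1
  have h3 := h1.add h2
  have e : T2_gE u = 4 * oddKernel ((1 / 4 : ℝ) : UnitAddCircle) (4 * u) +
      4 * oddKernel ((1 / 4 : ℝ) : UnitAddCircle) (4 * u) := by
    unfold T2_gE
    ring
  rw [e]
  refine h3.congr_fun fun x => ?_
  simp only [Function.comp, Equiv.neg_apply]
  unfold ch
  have h8 : x % 4 = 0 ∨ x % 4 = 1 ∨ x % 4 = 2 ∨ x % 4 = 3 := by omega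
  rcases h8 with h | h | h | h
  · have h9 : (-x) % 4 = 0 := by omega
    simp [h, h9]
  · have h9 : (-x) % 4 = 3 := by omega
    simp [h, h9]
  · have h9 : (-x) % 4 = 2 := by omega
    simp [h, h9]
  · have h9 : (-x) % 4 = 1 := by omega
    simp [h, h9]

private theorem T2_et {t : ℝ} (ht : 0 < t) :
    HasSum (fun d : ℤ => ((et d : ℤ) : ℝ) * rexp (-(π * (d : ℝ) ^ 2 / 4) * (2 * t))) (T2_tC (2 * t)) := by
  have h := T2_tC_int (by positivity : 0 < 2 * t)
  have hinj : Function.Injective (fun n : ℤ => 2 * n) := by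
    intro a b hab
    simp only at hab
    omega
  have e : (fun n : ℤ => (-1 : ℝ) ^ n.natAbs * rexp (-(π * (n : ℝ) ^ 2) * (2 * t))) =
      (fun d : ℤ => ((et d : ℤ) : ℝ) * rexp (-(π * (d : ℝ) ^ 2 / 4) * (2 * t))) ∘ (fun n : ℤ => 2 * n) := by
    funext n
    simp only [Function.comp]
    push_cast
    have e1 : -(π * (2 * (n : ℝ)) ^ 2 / 4) * (2 * t) = -(π * (n : ℝ) ^ 2) * (2 * t) := by ring
    rw [e1]
    congr 1
    unfold et
    rcases Int.even_or_odd n with h1 | h1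
    · rw [Even.neg_one_pow (Int.natAbs_even.2 h1), if_pos (by obtain ⟨k, rfl⟩ := h1; omega)]
      simp
    · rw [Odd.neg_one_pow (Int.natAbs_odd.2 h1), if_neg (by obtain ⟨k, rfl⟩ := h1; omega),
        if_pos (by obtain ⟨k, rfl⟩ := h1; omega)]
      simp
  rw [e] at h
  rw [← Function.Injective.hasSum_iff hinj]
  · exact h
  · intro x hx
    have h1 : et x = 0 := by
      unfold et
      rw [if_neg, if_neg]
      · intro h4
        apply hx
        refine ⟨x / 2, ?_⟩
        simp only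
        omega
      · intro h4
        apply hx
        refine ⟨x / 2, ?_⟩
        simp only
        omega
    rw [h1, Int.cast_zero, zero_mul]

private theorem T2_od {t : ℝ} (ht : 0 < t) :
    HasSum (fun x : ℤ => ((od x : ℤ) : ℝ) * rexp (-(π * (x : ℝ) ^ 2 / 4) * (t / 2))) (T2_tE (t / 2)) := by
  have h := T2_tE_series (by positivity : 0 < t / 2)
  have hinj : Function.Injective (fun n : ℤ => 2 * n + 1) := by
    intro a b hab
    simp only at hab
    omega
  have e : (fun n : ℤ => rexp (-(π * ((n : ℝ) + 1 / 2) ^ 2) * (t / 2))) =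
      (fun x : ℤ => ((od x : ℤ) : ℝ) * rexp (-(π * (x : ℝ) ^ 2 / 4) * (t / 2))) ∘ (fun n : ℤ => 2 * n + 1) := by
    funext n
    simp only [Function.comp]
    have h1 : od (2 * n + 1) = 1 := by
      unfold od
      rw [if_pos (by omega)]
    rw [h1]
    push_cast
    have e1 : -(π * (2 * (n : ℝ) + 1) ^ 2 / 4) * (t / 2) = -(π * ((n : ℝ) + 1 / 2) ^ 2) * (t / 2) := by ring
    rw [e1, one_mul]
  rw [e] at h
  rw [← Function.Injective.hasSum_iff hinj]
  · exact h
  · intro x hx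
    have h1 : od x = 0 := by
      unfold od
      rw [if_neg]
      intro h4
      apply hx
      refine ⟨x / 2, ?_⟩
      simp only
      omega
    rw [h1, Int.cast_zero, zero_mul]

private theorem T2_double {t : ℝ} (ht : 0 < t) :
    HasSum (fun p : ℤ × ℤ => ((ci p : ℤ) : ℝ) *
      rexp (-π * (((p.1 : ℝ) ^ 2 + 4 * (p.2 : ℝ) ^ 2) / 8) * t))
      (T2_gE (t / 2) * T2_tC (2 * t) - 2 * T2_gE (2 * t) * T2_tE (t / 2)) := by
  have h1 := T2_ch (u := t / 2) (by positivity)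
  have h2 := T2_et ht
  have h3 := T2_od ht
  have h4 := T2_ch (u := 2 * t) (by positivity)
  have a1 := h1.mul h2 (summable_mul_of_summable_norm h1.summable.norm h2.summable.norm)
  have a2 := (h3.mul h4 (summable_mul_of_summable_norm h3.summable.norm h4.summable.norm)).mul_left 2
  have a3 := a1.sub a2
  have e : T2_gE (t / 2) * T2_tC (2 * t) - 2 * T2_gE (2 * t) * T2_tE (t / 2) =
      T2_gE (t / 2) * T2_tC (2 * t) - 2 * (T2_tE (t / 2) * T2_gE (2 * t)) := by ring
  rw [e]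
  refine a3.congr_fun fun p => ?_
  have e1 : -π * (((p.1 : ℝ) ^ 2 + 4 * (p.2 : ℝ) ^ 2) / 8) * t =
      -(π * (p.1 : ℝ) ^ 2 / 4) * (t / 2) + -(π * (p.2 : ℝ) ^ 2 / 4) * (2 * t) := by ring
  rw [e1, Real.exp_add]
  unfold ci
  push_cast
  ring

end T2aux

/-- The theta series is positive on `(1, ∞)`. -/
theorem t2 (f : ℝ → ℝ)
    (hs : ∀ t : ℝ, 0 < t → HasSum (fun p : ℤ × ℤ => ((ci p : ℤ) : ℝ) *
      rexp (-π * (((p.1 : ℝ) ^ 2 + 4 * (p.2 : ℝ) ^ 2) / 8) * t)) (f t))
    (h1 : f 1 = 0) (t : ℝ) (ht : 1 < t) : 0 < f t := by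
  have h2 : ∀ s : ℝ, 0 < s → f s = T2_gE (s / 2) * T2_tC (2 * s) - 2 * T2_gE (2 * s) * T2_tE (s / 2) :=
    fun s hs0 => (hs s hs0).unique (T2_double hs0)
  rw [h2 t (by linarith)]
  refine T2_f_pos ?_ ht
  have h3 := h2 1 one_pos
  rw [h1, mul_one] at h3
  linarith

end Pool.Agent.Lib.MP_1a91b9_ntQH.R4
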