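import Pool.Agent.Lib.MP_1a91b9_ntQH.R4.L3
import Pool.Agent.Lib.MP_1a91b9_ntQH.R4.T1
import Pool.Agent.Lib.MP_1a91b9_ntQH.R4.T2
import Pool.Agent.Lib.MP_1a91b9_ntQH.R4.R1
import Pool.Agent.Lib.MP_1a91b9_ntQH.R4.R2
import Pool.Agent.Lib.MP_1a91b9_ntC.Stab
import Pool.Agent.Lib.MP_1a91b9_ntI.TrLs
import Pool.Agent.Lib.MP_1a91b9_ntI.Qd

/-!
# MP_1a91b9_nt (abelian extensions of exponent four): the curve `y² = x³ - 2 x`, of rank two over `ℚ(i)`
-/

set_option autoImplicit false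

namespace Pool.Agent.Lib.MP_1a91b9_ntQH.R4

open NumberField WeierstrassCurve
open Pool.Agent.Lib.MP_1a91b9_ntQ (WD4 K4 iO iO_sq)
open Pool.Agent.Lib.MP_1a91b9_nuI (HasJ)
open Pool.Agent.Lib.MP_1a91b9_ntC (rk rk_bij)

/-- the theta series -/
theorem thF : ∃ f : ℝ → ℝ, ThF f := by
  obtain ⟨f, h1, h2, h3, h4⟩ := t1
  have h0 : f 1 = 0 := by
    have h5 := h3 1 one_pos
    rw [one_div_one, Real.one_rpow, one_mul] at h5
    linarith
  exact ⟨f, h1, h2, h3, h4, fun t ht => t2 f h1 h0 t ht⟩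

/-- the curve -/
def E2 (F : Type) [Field F] : WeierstrassCurve F := ⟨0, 0, 0, -2, 0⟩

/-- order and rank are two -/
def Rk2 {F : Type} [Field F] [NumberField F] (W : WeierstrassCurve F) : Prop :=
  (∃ h : ℂ → ℂ, Differentiable ℂ h ∧ (∀ s : ℂ, 3 / 2 < s.re → h s = W.LSeries s) ∧
    analyticOrderAt h 1 = 2) ∧ rk W = 2

theorem WD4_two : WD4 2 = E2 K4 := by
  unfold WD4 E2
  congr 1

theorem hasJ_E2 {F : Type} [Field F] : HasJ (E2 F) 1728 := by
  unfold HasJ E2 WeierstrassCurve.c₄ WeierstrassCurve.Δ WeierstrassCurve.b₂ WeierstrassCurve.b₄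
    WeierstrassCurve.b₆ WeierstrassCurve.b₈
  push_cast
  ring

theorem E2_map {F F' : Type} [Field F] [Field F'] (f : F →+* F') : (E2 F).map f = E2 F' := by
  refine WeierstrassCurve.ext ?_ ?_ ?_ ?_ ?_
  · exact map_zero f
  · exact map_zero f
  · exact map_zero f
  · show f (-2) = -2
    rw [map_neg, map_ofNat]
  · exact map_zero f

/-- **The base case over `K4`.** -/
theorem rk2_K4 : Rk2 (E2 K4) := by
  classical
  obtain ⟨f, hf⟩ := thF
  obtain ⟨g, h1, h2, h3⟩ := exists_g hf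
  rw [WD4_two] at h2
  have h4 := rk4 abs4
  rw [WD4_two] at h4
  exact ⟨⟨g, h1, h2, h3⟩, h4⟩

/-- The property is invariant under isomorphisms. -/
theorem Rk2.equiv {F F' : Type} [Field F] [NumberField F] [Field F'] [NumberField F'] (e : F ≃+* F')
    (h : Rk2 (E2 F)) : Rk2 (E2 F') := by
  obtain ⟨⟨g, h1, h2, h3⟩, h4⟩ := h
  refine ⟨⟨g, h1, fun s hs => ?_, h3⟩, ?_⟩
  · rw [h2 s hs, ← E2_map (e : F →+* F')]
    exact (Pool.Agent.Lib.MP_1a91b9_ntI.ls_e_hasJ e hasJ_E2 s).symm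
  · let _ : Algebra F F' := (e : F →+* F').toAlgebra
    have h5 := rk_bij (F := F) (F' := F') e.bijective (E2 F)
    rw [h4] at h5
    rw [← h5, E2_map]

/-- **The base case**, over every quadratic field which contains a square root of `-1`. -/
theorem rk2_K {K : Type} [Field K] [NumberField K] (hK : Module.finrank ℚ K = 2) {i : K}
    (hi : i ^ 2 = -1) : Rk2 (E2 K) := by
  have hl : (iO : K4) ^ 2 = -1 := by
    have h1 := congrArg (fun x : 𝓞 K4 => (x : K4)) iO_sq
    push_cast at h1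
    exact h1
  obtain ⟨e⟩ := Pool.Agent.Lib.MP_1a91b9_ntI.exists_iso_pq
    Pool.Agent.Lib.MP_1a91b9_ntQ.finrank_K4 hK (t := 0) (n := 1) (by norm_num) (s := (iO : K4))
    (by rw [hl]; push_cast; ring) (s' := i) (by rw [hi]; push_cast; ring)
  exact rk2_K4.equiv e

/-- The ranks are equal if there are no new points. -/
theorem rank_eq {K : Type} [Field K] (E : WeierstrassCurve K) {P : Type} [Field P] [Algebra K P]
    (hp : ∀ x' y' : P, (E.baseChange P).toAffine.Equation x' y' →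
      ∃ x y : K, algebraMap K P x = x' ∧ algebraMap K P y = y') :
    rk (E.baseChange P) = rk E := by
  classical
  let f : (E.baseChange K).toAffine.Point →+ (E.baseChange P).toAffine.Point :=
    WeierstrassCurve.Affine.Point.map (W' := E) (Algebra.ofId K P)
  have h1 : Function.Injective f := WeierstrassCurve.Affine.Point.map_injective (W' := E) _
  have h2 : Function.Surjective f := by
    rintro (_ | ⟨x', y', h⟩)
    · exact ⟨0, rfl⟩
    · obtain ⟨x, y, hx, hy⟩ := hp x' y' h.1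
      subst hx
      subst hy
      have h3 : (E.baseChange K).toAffine.Nonsingular x y :=
        (WeierstrassCurve.Affine.baseChange_nonsingular (W := E) (f := Algebra.ofId K P)
          (Algebra.ofId K P).injective x y).1 h
      exact ⟨WeierstrassCurve.Affine.Point.some _ _ h3, rfl⟩
  have e : (E.baseChange K).toAffine.Point ≃ₗ[ℤ] (E.baseChange P).toAffine.Point :=
    LinearEquiv.ofBijective f.toIntLinearMap ⟨h1, h2⟩
  have h3 : rk (E.baseChange P) = rk (E.baseChange K) := e.symm.finrank_eq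
  have h4 : E.baseChange K = E := WeierstrassCurve.map_id E
  rw [h3, h4]

/-- **Order and rank go up.** -/
theorem rk2_up {K : Type} [Field K] [NumberField K] {E : WeierstrassCurve K} (h : Rk2 E)
    {P : Type} [Field P] [NumberField P] [Algebra K P]
    (hp : ∀ x' y' : P, (E.baseChange P).toAffine.Equation x' y' →
      ∃ x y : K, algebraMap K P x = x' ∧ algebraMap K P y = y')
    (hg : ∃ g : ℂ → ℂ, Differentiable ℂ g ∧ g 1 ≠ 0 ∧ ∀ s : ℂ, 3 / 2 < s.re →
      (E.baseChange P).LSeries s = E.LSeries s * g s) : Rk2 (E.baseChange P) := by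
  obtain ⟨g, g1, g2, g3⟩ := hg
  obtain ⟨⟨k, k1, k2, k3⟩, h4⟩ := h
  refine ⟨⟨fun s => k s * g s, k1.mul g1, fun s hs => ?_, ?_⟩, (rank_eq E hp).trans h4⟩
  · show k s * g s = _
    rw [g3 s hs, k2 s hs]
  · have hka : AnalyticAt ℂ k 1 := k1.analyticAt 1
    have hga : AnalyticAt ℂ g 1 := g1.analyticAt 1
    have h2 := analyticOrderAt_mul hka hga
    rw [hga.analyticOrderAt_eq_zero.2 g2, add_zero, k3] at h2
    exact h2

end Pool.Agent.Lib.MP_1a91b9_ntQH.R4
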