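import Mathlib

/-!
# MP_1a91b9_nt (abelian extensions of exponent four): the Hecke character of `y² = x³ - 2 x` over `ℚ(i)`

`tm s (x, d)` are the terms of the L-series of the Hecke character, `x + 2 d i` the generators with `x` odd.
-/

set_option autoImplicit false

namespace Pool.Agent.Lib.MP_1a91b9_ntQH.R4

/-- the character `(-4 / x)` -/
def ch (x : ℤ) : ℤ := if x % 4 = 1 then 1 else if x % 4 = 3 then -1 else 0

/-- the indicator of the odd numbers -/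
def od (x : ℤ) : ℤ := if x % 2 = 1 then 1 else 0

/-- the signs of the even numbers -/
def et (d : ℤ) : ℤ := if d % 4 = 0 then 1 else if d % 4 = 2 then -1 else 0

/-- the coefficients -/
def ci (p : ℤ × ℤ) : ℤ := ch p.1 * p.1 * et p.2 - 2 * (od p.1 * (ch p.2 * p.2))

/-- The terms of the L-series. -/
noncomputable def tm (s : ℂ) (p : ℤ × ℤ) : ℂ :=
  ((ci p : ℤ) : ℂ) * (((p.1 ^ 2 + 4 * p.2 ^ 2 : ℤ)) : ℂ) ^ (-s)

/-- The properties of the theta series. -/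
structure ThF (f : ℝ → ℝ) : Prop where
  hs : ∀ t : ℝ, 0 < t → HasSum (fun p : ℤ × ℤ => ((ci p : ℤ) : ℝ) *
    Real.exp (-Real.pi * (((p.1 : ℝ) ^ 2 + 4 * (p.2 : ℝ) ^ 2) / 8) * t)) (f t)
  fc : ContinuousOn f (Set.Ioi 0)
  fe : ∀ t : ℝ, 0 < t → f (1 / t) = -(t ^ (2 : ℝ) * f t)
  dec : ∃ c : ℝ, 0 < c ∧ f =O[Filter.atTop] fun t => Real.exp (-c * t)
  fp : ∀ t : ℝ, 1 < t → 0 < f t

end Pool.Agent.Lib.MP_1a91b9_ntQH.R4
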