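import Pool.Agent.Lib.MP_1a91b9_ntQH.R4.Bas
import Pool.Agent.Lib.MP_1a91b9_ntQH.Fin2

/-!
# MP_1a91b9_nt (abelian extensions of exponent four): the examples of rank zero and of rank two
-/

set_option autoImplicit false

namespace Pool.Agent.Lib.MP_1a91b9_ntQH

open NumberField WeierstrassCurve
open Pool.Agent.Lib.MP_1a91b9_ntDF (DiscLe)
open Pool.Agent.Lib.MP_1a91b9_ntQG (Ext)

/-- **Order and rank are two** over all the fields between `K` and `N`, for the curve `y² = x³ - 2 x`. -/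
theorem rk2_all {K : Type} [Field K] [NumberField K] (hK : Module.finrank ℚ K = 2) (hi : ∃ i : K, i ^ 2 = -1)
    {E : WeierstrassCurve K} (hE : E = ⟨0, 0, 0, -2, 0⟩) {N : Type} [Field N] [Algebra K N] (h : PropA E N)
    (P : Type) [Field P] [NumberField P] [Algebra K P] [Algebra P N] [IsScalarTower K P N] :
    R4.Rk2 (E.baseChange P) := by
  obtain ⟨i, hi⟩ := hi
  have h0 : R4.Rk2 E := by
    rw [hE]
    exact R4.rk2_K hK hi
  obtain ⟨h1, ⟨g, g1, g2, g3⟩, -⟩ := (h K).1 P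
  have h4 : E.baseChange K = E := WeierstrassCurve.map_id E
  refine R4.rk2_up h0 h1 ⟨g, g1, g2, fun s hs => ?_⟩
  rw [g3 s hs, h4]

/-- **All the intermediate fields, one curve, with the examples.** -/
theorem fin_A2 (K : Type) [Field K] [NumberField K] (hK : Module.finrank ℚ K = 2) (hi : ∃ i : K, i ^ 2 = -1)
    (G : Type) [CommGroup G] [Finite G] (hG : ∀ x : G, x ^ 4 = 1) (A : K) (hA : A ≠ 0) :
    ∃ c : ℝ, 0 < c ∧ ∀ᶠ X : ℝ in Filter.atTop, c ≤
      (Nat.card {N : IntermediateField K (AlgebraicClosure K) // N ∈ Ext K G ∧ DiscLe N X ∧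
        (PropA (⟨0, 0, 0, A, 0⟩ : WeierstrassCurve K) N ∧
          ((⟨0, 0, 0, A, 0⟩ : WeierstrassCurve K) = ⟨0, 0, 0, 1, 0⟩ →
            AllS (⟨0, 0, 0, A, 0⟩ : WeierstrassCurve K) N) ∧
          ((⟨0, 0, 0, A, 0⟩ : WeierstrassCurve K) = ⟨0, 0, 0, -2, 0⟩ →
            ∀ (P : Type) [Field P] [NumberField P] [Algebra K P] [Algebra P N] [IsScalarTower K P N],
              R4.Rk2 ((⟨0, 0, 0, A, 0⟩ : WeierstrassCurve K).baseChange P)))} : ℝ) /
      (Nat.card {N : IntermediateField K (AlgebraicClosure K) // N ∈ Ext K G ∧ DiscLe N X} : ℝ) := by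
  obtain ⟨c, hc, h⟩ := fin_A1 K hK hi G hG A hA
  refine ⟨c, hc, ?_⟩
  filter_upwards [h] with X hX
  have h5 : {N : IntermediateField K (AlgebraicClosure K) | N ∈ Ext K G ∧ DiscLe N X ∧
      (PropA (⟨0, 0, 0, A, 0⟩ : WeierstrassCurve K) N ∧
          ((⟨0, 0, 0, A, 0⟩ : WeierstrassCurve K) = ⟨0, 0, 0, 1, 0⟩ →
            AllS (⟨0, 0, 0, A, 0⟩ : WeierstrassCurve K) N))} =
      {N : IntermediateField K (AlgebraicClosure K) | N ∈ Ext K G ∧ DiscLe N X ∧
      (PropA (⟨0, 0, 0, A, 0⟩ : WeierstrassCurve K) N ∧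
          ((⟨0, 0, 0, A, 0⟩ : WeierstrassCurve K) = ⟨0, 0, 0, 1, 0⟩ →
            AllS (⟨0, 0, 0, A, 0⟩ : WeierstrassCurve K) N) ∧
          ((⟨0, 0, 0, A, 0⟩ : WeierstrassCurve K) = ⟨0, 0, 0, -2, 0⟩ →
            ∀ (P : Type) [Field P] [NumberField P] [Algebra K P] [Algebra P N] [IsScalarTower K P N],
              R4.Rk2 ((⟨0, 0, 0, A, 0⟩ : WeierstrassCurve K).baseChange P)))} := by
    ext N
    refine and_congr_right fun hN => and_congr_right fun hD =>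
      ⟨fun h => ⟨h.1, h.2, fun hE P _ _ _ _ _ => rk2_all hK hi hE h.1 P⟩, fun h => ⟨h.1, h.2.1⟩⟩
  have h6 := congrArg (fun s : Set (IntermediateField K (AlgebraicClosure K)) => Nat.card s) h5
  have h7 : c ≤ (Nat.card {N : IntermediateField K (AlgebraicClosure K) | N ∈ Ext K G ∧ DiscLe N X ∧
      (PropA (⟨0, 0, 0, A, 0⟩ : WeierstrassCurve K) N ∧
          ((⟨0, 0, 0, A, 0⟩ : WeierstrassCurve K) = ⟨0, 0, 0, 1, 0⟩ →
            AllS (⟨0, 0, 0, A, 0⟩ : WeierstrassCurve K) N))} : ℝ) /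
      (Nat.card {N : IntermediateField K (AlgebraicClosure K) // N ∈ Ext K G ∧ DiscLe N X} : ℝ) := hX
  have h8 := congrArg (fun k : ℕ => (k : ℝ)) h6
  exact h7.trans (le_of_eq (congrArg (fun y : ℝ => y /
    (Nat.card {N : IntermediateField K (AlgebraicClosure K) // N ∈ Ext K G ∧ DiscLe N X} : ℝ)) h8))

end Pool.Agent.Lib.MP_1a91b9_ntQH
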