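import Pool.Agent.Lib.MP_1a91b9_ntQH.R4.Defs
import Pool.Agent.Lib.MP_1a91b9_ntQ.A.SerB

/-!
# MP_1a91b9_nt (abelian extensions of exponent four): the Hecke L-series of `y² = x³ - 2 x` over `ℚ(i)`
as a double series over the integers
-/

set_option autoImplicit false

namespace Pool.Agent.Lib.MP_1a91b9_ntQH.R4

open NumberField IsDedekindDomain Finset Pool.Agent.Lib.MP_1a91b9_nuT Pool.Agent.Lib.MP_1a91b9_ntQ
open Pool.Agent.Lib.MP_1a91b9_nuT.S4 (Lf)

noncomputable section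

/-- the exponents, not used -/
def eo : Pg → ZMod 4 := fun _ => 1

/-- the character of `2` -/
def XE : 𝓞 K → ℂ := XB 3 2 eo ∅

/-- the modulus `lam ^ 3` -/
def f3 : 𝓞 K := lam ^ 3

instance : IsMod f3 := isMod4

theorem XE_chr : Chr f3 (fB 3 2 * DDq ∅) XE := XB_chr 3 2 eo ∅

/-- the elements -/
def el (p : ℤ × ℤ) : 𝓞 K4 := ((p.1 : ℤ) : 𝓞 K4) + ((2 * p.2 : ℤ) : 𝓞 K4) * iO

theorem cp_el (p : ℤ × ℤ) : cp (el p) = (p.1, 2 * p.2) := cp_coords _ _

theorem el_inj : Function.Injective el := by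
  intro p q h
  have h1 := congrArg cp h
  rw [cp_el, cp_el, Prod.mk.injEq] at h1
  exact Prod.ext h1.1 (by omega)

/-- the values of the character -/
theorem XE_el {x d : ℤ} (h2 : x % 2 = 1) (h4 : (x + 2 * d) % 4 = 1) :
    XE (el (x, d)) = e4 ((d : ZMod 4) - 2 * (d : ZMod 4) ^ 2) := by
  obtain ⟨m, hm⟩ : ∃ m : ℤ, 1 - x = 2 * (2 * m - d) := ⟨((1 - x) / 2 + d) / 2, by omega⟩
  obtain ⟨n, hn⟩ : ∃ n : ℤ, n = m - d := ⟨_, rfl⟩
  have hx : x = 1 - 2 * m - 2 * n := by omega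
  have hd : d = m - n := by omega
  have e : el (x, d) = 1 + lam ^ 3 * ((m : 𝓞 K4) + (n : 𝓞 K4) * iO) := by
    apply cp_inj
    rw [cp_el, cp_form]
    ext
    · exact hx
    · show 2 * d = _
      rw [hd]
      ring
  have h0 : XE (el (x, d)) = e4 (3 * nn (el (x, d)) + ((2 : ℕ) : ZMod 4) * ll (el (x, d))) := by
    rw [XE, XB_eq, prod_empty, mul_one]
    rfl
  have hl : ll (1 + lam ^ 3 * ((m : 𝓞 K4) + (n : 𝓞 K4) * iO)) =
      -(m : ZMod 4) - ((m : ZMod 4) - n) ^ 2 := ll_form m n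
  rw [h0, e, nn_form, hl, hd]
  congr 1
  push_cast
  have key : ∀ a b : ZMod 4, 3 * (a + b) + 2 * (-a - (a - b) ^ 2) = a - b - 2 * (a - b) ^ 2 := by
    decide
  exact key _ _

/-- the summand without the character -/
def Bt (s : ℂ) (a : 𝓞 K) : ℂ := (starRingEnd ℂ) (em a) * ((‖em a‖ : ℝ) : ℂ) ^ (-2 * s)

theorem Bt_neg (s : ℂ) (a : 𝓞 K) : Bt s (-a) = -Bt s a := by
  rw [Bt, Bt, em_neg, map_neg, norm_neg, neg_mul]

theorem Bt_summable {s : ℂ} (hs : 2 < s.re) : Summable (Bt s) := by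
  have h := SumT_summable (1 : 𝓞 K) 0 hs
  refine h.congr fun a => ?_
  exact SumT_pos s (one_dvd _)

open Classical in
/-- the summand over the normalised elements -/
def Ft (s : ℂ) (a : 𝓞 K) : ℂ := if f3 ∣ a - 1 then XE a * Bt s a else 0

theorem Ft_norm_le (s : ℂ) (a : 𝓞 K) : ‖Ft s a‖ ≤ ‖Bt s a‖ := by
  by_cases h : f3 ∣ a - 1
  · rw [Ft, if_pos h, norm_mul]
    have h1 := XE_chr.le a h
    calc ‖XE a‖ * ‖Bt s a‖ ≤ 1 * ‖Bt s a‖ := mul_le_mul_of_nonneg_right h1 (norm_nonneg _)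
      _ = _ := one_mul _
  · rw [Ft, if_neg h, norm_zero]
    exact norm_nonneg _

theorem Ft_summable {s : ℂ} (hs : 2 < s.re) : Summable (Ft s) :=
  Summable.of_norm_bounded (Bt_summable hs).norm (Ft_norm_le s)

/-- the series over the ideals as a series over the normalised elements -/
theorem LG_tsum {s : ℂ} (hs : 2 < s.re) : LG f3 XE s = ∑' a, Ft s a := by
  rw [XE_chr.LG_eq s hs]
  unfold S4.Lf
  refine Sum_gen (psK f3) ?_ ?_ ?_
  · intro I hI
    by_cases hc : IsCoprime I (Ideal.span {f3})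
    · exact (psK_of_coprime _ hc).2
    · exfalso
      apply hI
      rw [pG_neg hc, zero_mul]
  · intro a ha
    have h1 : f3 ∣ a - 1 := by
      by_contra h
      exact ha (by rw [Ft, if_neg h])
    exact psK_span a h1
  · intro a ha
    by_cases ha0 : a = 0
    · subst ha0
      have h1 : ¬ f3 ∣ (0 : 𝓞 K) - 1 := fun h => Gen_ne_zero (f := f3) h rfl
      rw [Ft, if_neg h1, pG, ha]
      simp [em_zero]
    · have h1 : f3 ∣ a - 1 := (Gen_iff ha0).1 ha
      rw [Ft, if_pos h1, pG, ha, Sum_norm, Bt]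
      ring

/-- the summand over all elements -/
def Gt (s : ℂ) (a : 𝓞 K) : ℂ := Ft s a + Ft s (-a)

theorem Gt_summable {s : ℂ} (hs : 2 < s.re) : Summable (Gt s) := by
  have h1 := Ft_summable hs
  have h2 : Summable fun a => Ft s (-a) := (Equiv.neg (𝓞 K)).summable_iff.2 h1
  exact h1.add h2

theorem two_LG_O {s : ℂ} (hs : 2 < s.re) : 2 * LG f3 XE s = ∑' a : 𝓞 K, Gt s a := by
  rw [LG_tsum hs]
  have h1 := Ft_summable hs
  have h2 : Summable fun a => Ft s (-a) := (Equiv.neg (𝓞 K)).summable_iff.2 h1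
  have h3 : ∑' a, Ft s (-a) = ∑' a, Ft s a := (Equiv.neg (𝓞 K)).tsum_eq (Ft s)
  have h4 := h1.tsum_add h2
  rw [h3] at h4
  rw [two_mul, ← h4]
  rfl

theorem Pr_el {x d : ℤ} : f3 ∣ el (x, d) - 1 ↔ x % 2 = 1 ∧ (x + 2 * d) % 4 = 1 := by
  have h := Pr_iff (x := el (x, d))
  rw [cp_el] at h
  exact h

theorem neg_el (x d : ℤ) : -el (x, d) = el (-x, -d) := by
  apply cp_inj
  rw [cp_neg, cp_el, cp_el]
  ext
  · rfl
  · show -(2 * d) = 2 * -d
    ring

/-- outside of the range the summand vanishes -/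
theorem Gt_supp (s : ℂ) : Function.support (Gt s) ⊆ Set.range el := by
  intro a ha
  by_contra h
  apply ha
  have h0 : ∀ b : 𝓞 K4, (b = a ∨ b = -a) → ¬ f3 ∣ b - 1 := by
    intro b hb h1
    have h2 := (Pr_iff (x := b)).1 h1
    apply h
    have h3 : (cp a).2 % 2 = 0 := by
      rcases hb with rfl | rfl
      · omega
      · rw [cp_neg] at h2
        simp only [Prod.fst_neg, Prod.snd_neg] at h2
        omega
    refine ⟨((cp a).1, (cp a).2 / 2), cp_inj ?_⟩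
    rw [cp_el]
    ext
    · rfl
    · show 2 * ((cp a).2 / 2) = (cp a).2
      omega
  show Ft s a + Ft s (-a) = 0
  rw [Ft, Ft, if_neg (h0 a (Or.inl rfl)), if_neg (h0 (-a) (Or.inr rfl)), add_zero]

theorem two_LG_Z {s : ℂ} (hs : 2 < s.re) : 2 * LG f3 XE s = ∑' p : ℤ × ℤ, Gt s (el p) := by
  rw [two_LG_O hs]
  exact (Function.Injective.tsum_eq el_inj (Gt_supp s)).symm

theorem Bt_el (s : ℂ) (p : ℤ × ℤ) : Bt s (el p) =
    ((p.1 : ℂ) - 2 * p.2 * Complex.I) * (((p.1 ^ 2 + 4 * p.2 ^ 2 : ℤ)) : ℂ) ^ (-s) := by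
  have h2 : (((p.1 ^ 2 + 4 * p.2 ^ 2 : ℤ)) : ℂ) =
      (Ideal.absNorm (Ideal.span {(el p : 𝓞 K4)}) : ℂ) := by
    have h3 : (Nz (el p) : ℤ) = p.1 ^ 2 + 4 * p.2 ^ 2 := by
      rw [Nz_cp, cp_el]
      ring
    have h4 : Ideal.absNorm (Ideal.span {(el p : 𝓞 K4)}) = Nz (el p) :=
      Ideal.absNorm_span_singleton _
    rw [h4, ← h3, Int.cast_natCast]
  rw [h2]
  have h5 : (Ideal.absNorm (Ideal.span {(el p : 𝓞 K4)}) : ℂ) ^ (-s) =
      ((‖em (el p)‖ : ℝ) : ℂ) ^ (-2 * s) := Sum_norm (el p) s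
  rw [h5, Bt]
  congr 1
  have h6 : em (el p) = (p.1 : ℂ) + 2 * p.2 * Complex.I := by
    have h7 : em (el p) = em (((p.1 : ℤ) : 𝓞 K) + ((2 * p.2 : ℤ) : 𝓞 K) * iO) := rfl
    rw [h7, em_add, em_mul, em_intCast, em_intCast, em_iO]
    push_cast
    ring
  rw [h6, map_add, map_mul, map_mul, map_intCast, map_intCast, Complex.conj_I, map_ofNat]
  ring

/-- the sign of `ψ` -/
def kp (x d : ℤ) : ℂ :=
  if d % 4 = 0 then ((ch x : ℤ) : ℂ) else if d % 4 = 1 then -Complex.I else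
    if d % 4 = 2 then -((ch x : ℤ) : ℂ) else Complex.I

theorem zt_I : Pool.Agent.Lib.MP_1a91b9_nuT.zt = Complex.I := em_iO

theorem ch_one {x : ℤ} (h : x % 4 = 1) : ch x = 1 := by rw [ch, if_pos h]

theorem ch_three {x : ℤ} (h : x % 4 = 3) : ch x = -1 := by
  rw [ch, if_neg (by omega), if_pos h]

theorem ch_ev {x : ℤ} (h : x % 2 = 0) : ch x = 0 := by
  rw [ch, if_neg (by omega), if_neg (by omega)]

theorem cast_mod {d r : ℤ} (h : d % 4 = r) : (d : ZMod 4) = (r : ZMod 4) := by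
  rw [ZMod.intCast_eq_intCast_iff, ← h]
  exact (Int.mod_modEq d 4).symm

theorem e4_kp {x d : ℤ} (h2 : x % 2 = 1) :
    ((x + 2 * d) % 4 = 1 → e4 ((d : ZMod 4) - 2 * (d : ZMod 4) ^ 2) = kp x d) ∧
    ((x + 2 * d) % 4 = 3 → -e4 (((-d : ℤ) : ZMod 4) - 2 * ((-d : ℤ) : ZMod 4) ^ 2) = kp x d) := by
  have hd : d % 4 = 0 ∨ d % 4 = 1 ∨ d % 4 = 2 ∨ d % 4 = 3 := by omega
  have a0 : ((0 : ℤ) : ZMod 4) - 2 * ((0 : ℤ) : ZMod 4) ^ 2 = 0 := by decide
  have a1 : ((1 : ℤ) : ZMod 4) - 2 * ((1 : ℤ) : ZMod 4) ^ 2 = 3 := by decide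
  have a2 : ((2 : ℤ) : ZMod 4) - 2 * ((2 : ℤ) : ZMod 4) ^ 2 = 2 := by decide
  have a3 : ((3 : ℤ) : ZMod 4) - 2 * ((3 : ℤ) : ZMod 4) ^ 2 = 1 := by decide
  rcases hd with h | h | h | h
  · have h' : (-d) % 4 = 0 := by omega
    rw [cast_mod h, cast_mod h', a0, e4_zero, kp, if_pos h]
    constructor
    · intro h3
      rw [ch_one (by omega), Int.cast_one]
    · intro h3
      rw [ch_three (by omega), Int.cast_neg, Int.cast_one]
  · have h' : (-d) % 4 = 3 := by omega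
    rw [cast_mod h, cast_mod h', a1, a3, e4_three, e4_one, zt_I, kp, if_neg (by omega), if_pos h]
    exact ⟨fun _ => rfl, fun _ => rfl⟩
  · have h' : (-d) % 4 = 2 := by omega
    rw [cast_mod h, cast_mod h', a2, e4_two, kp, if_neg (by omega), if_neg (by omega), if_pos h]
    constructor
    · intro h3
      rw [ch_one (by omega), Int.cast_one]
    · intro h3
      rw [ch_three (by omega), Int.cast_neg, Int.cast_one]
  · have h' : (-d) % 4 = 1 := by omega
    rw [cast_mod h, cast_mod h', a3, a1, e4_three, e4_one, zt_I, kp, if_neg (by omega),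
      if_neg (by omega), if_neg (by omega), neg_neg]
    exact ⟨fun _ => rfl, fun _ => rfl⟩

theorem Gt_el (s : ℂ) {x d : ℤ} (h2 : x % 2 = 1) :
    Gt s (el (x, d)) = kp x d * Bt s (el (x, d)) := by
  have h4 : (x + 2 * d) % 4 = 1 ∨ (x + 2 * d) % 4 = 3 := by omega
  have hn : -el (x, d) = el (-x, -d) := neg_el x d
  rcases h4 with h4 | h4
  · have p1 : f3 ∣ el (x, d) - 1 := Pr_el.2 ⟨h2, h4⟩
    have p2 : ¬ f3 ∣ el (-x, -d) - 1 := fun h => by
      have h5 := (Pr_el.1 h).2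
      omega
    have e1 : Gt s (el (x, d)) = Ft s (el (x, d)) + Ft s (el (-x, -d)) := by
      rw [← hn]
      rfl
    rw [e1, Ft, Ft, if_pos p1, if_neg p2, add_zero, XE_el h2 h4, (e4_kp h2).1 h4]
  · have p1 : ¬ f3 ∣ el (x, d) - 1 := fun h => by
      have h5 := (Pr_el.1 h).2
      omega
    have p2 : f3 ∣ el (-x, -d) - 1 := Pr_el.2 ⟨by omega, by omega⟩
    have e1 : Gt s (el (x, d)) = Ft s (el (x, d)) + Ft s (el (-x, -d)) := by
      rw [← hn]
      rfl
    have e2 : Bt s (el (-x, -d)) = -Bt s (el (x, d)) := by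
      rw [← hn]
      exact Bt_neg s _
    rw [e1, Ft, Ft, if_neg p1, if_pos p2, zero_add, XE_el (by omega) (by omega), e2, mul_neg,
      ← neg_mul, (e4_kp h2).2 h4]

theorem Gt_el_even (s : ℂ) {x d : ℤ} (h2 : x % 2 = 0) : Gt s (el (x, d)) = 0 := by
  have p1 : ¬ f3 ∣ el (x, d) - 1 := fun h => by
    have h5 := (Pr_el.1 h).1
    omega
  have p2 : ¬ f3 ∣ el (-x, -d) - 1 := fun h => by
    have h5 := (Pr_el.1 h).1
    omega
  have hn : -el (x, d) = el (-x, -d) := neg_el x d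
  have e1 : Gt s (el (x, d)) = Ft s (el (x, d)) + Ft s (el (-x, -d)) := by
    rw [← hn]
    rfl
  rw [e1, Ft, Ft, if_neg p1, if_neg p2, add_zero]

/-- the summands of `d` and `-d` -/
theorem Gt_sym (s : ℂ) (x d : ℤ) : Gt s (el (x, d)) + Gt s (el (x, -d)) = 2 * tm s (x, d) := by
  have h2 : x % 2 = 0 ∨ x % 2 = 1 := by omega
  rcases h2 with h2 | h2
  · rw [Gt_el_even s h2, Gt_el_even s h2, tm, ci]
    simp only
    rw [ch_ev h2, od, if_neg (by omega)]
    simp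
  · rw [Gt_el s h2, Gt_el s h2, Bt_el, Bt_el, tm, ci]
    simp only
    have ho : od x = 1 := by rw [od, if_pos h2]
    have e : x ^ 2 + 4 * (-d) ^ 2 = x ^ 2 + 4 * d ^ 2 := by ring
    rw [ho, e]
    have hI := Complex.I_sq
    have hd : d % 4 = 0 ∨ d % 4 = 1 ∨ d % 4 = 2 ∨ d % 4 = 3 := by omega
    rcases hd with h | h | h | h
    · have h' : (-d) % 4 = 0 := by omega
      rw [kp, kp, if_pos h, if_pos h', et, if_pos h, ch_ev (x := d) (by omega)]
      push_cast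
      ring
    · have h' : (-d) % 4 = 3 := by omega
      rw [kp, kp, if_neg (by omega), if_pos h, if_neg (by omega), if_neg (by omega),
        if_neg (by omega), et, if_neg (by omega), if_neg (by omega), ch_one h]
      push_cast
      linear_combination (4 * (d : ℂ) * ((x : ℂ) ^ 2 + 4 * (d : ℂ) ^ 2) ^ (-s)) * hI
    · have h' : (-d) % 4 = 2 := by omega
      rw [kp, kp, if_neg (by omega), if_neg (by omega), if_pos h, if_neg (by omega),
        if_neg (by omega), if_pos h', et, if_neg (by omega), if_pos h, ch_ev (x := d) (by omega)]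
      push_cast
      ring
    · have h' : (-d) % 4 = 1 := by omega
      rw [kp, kp, if_neg (by omega), if_neg (by omega), if_neg (by omega), if_neg (by omega),
        if_pos h', et, if_neg (by omega), if_neg (by omega), ch_three h]
      push_cast
      linear_combination (-4 * (d : ℂ) * ((x : ℂ) ^ 2 + 4 * (d : ℂ) ^ 2) ^ (-s)) * hI

/-- **The Hecke L-series as a double series.** -/
theorem two_LG {s : ℂ} (hs : 2 < s.re) : 2 * LG f3 XE s = ∑' p : ℤ × ℤ, tm s p := by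
  rw [two_LG_Z hs]
  obtain ⟨f, hf⟩ : ∃ f : ℤ × ℤ → ℂ, f = fun p => Gt s (el p) := ⟨_, rfl⟩
  have hsum : Summable f := by
    rw [hf]
    exact (Gt_summable hs).comp_injective el_inj
  let σ : ℤ × ℤ ≃ ℤ × ℤ := Equiv.prodCongr (Equiv.refl ℤ) (Equiv.neg ℤ)
  have h2 : Summable fun p => f (σ p) := σ.summable_iff.2 hsum
  have h3 : ∑' p, f (σ p) = ∑' p, f p := σ.tsum_eq f
  have h4 := hsum.tsum_add h2
  rw [h3] at h4
  have h5 : ∀ p, f p + f (σ p) = 2 * tm s p := by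
    intro p
    have hσ : σ p = (p.1, -p.2) := rfl
    simp only [hf]
    rw [hσ]
    exact Gt_sym s p.1 p.2
  have h6 : ∑' p, (f p + f (σ p)) = 2 * ∑' p, tm s p := by
    rw [← tsum_mul_left]
    exact tsum_congr h5
  rw [h6] at h4
  have h7 : (2 : ℂ) * ∑' p, tm s p = 2 * ∑' p, f p := by rw [h4]; ring
  have h8 := mul_left_cancel₀ two_ne_zero h7
  rw [h8, hf]

end

end Pool.Agent.Lib.MP_1a91b9_ntQH.R4
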